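import Pool.Agent.StrLink.Defs

set_option autoImplicit false

namespace Pool.Agent.StrLink

section lists

variable {α : Type}

theorem at2_append {i : ℕ} (f : α → α → List α) (a b : List α) (x y : α) (h : a.length = i) :
    at2 i f (a ++ x :: y :: b) = a ++ f x y ++ b := by
  subst h
  simp [at2]

theorem ins2_append {i : ℕ} (x y : α) (a b : List α) (h : a.length = i) :
    ins2 i x y (a ++ b) = a ++ x :: y :: b := by
  subst h
  simp [ins2]

theorem exists_split {i n : ℕ} (s : List α) (h : i + n ≤ s.length) :
    ∃ a m b, s = a ++ m ++ b ∧ a.length = i ∧ m.length = n := by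
  refine ⟨s.take i, (s.drop i).take n, (s.drop i).drop n, ?_, ?_, ?_⟩
  · rw [List.append_assoc, List.take_append_drop, List.take_append_drop]
  · simp; omega
  · simp; omega

/-- `at2` inside a window. -/
theorem at2_window {i : ℕ} (f : α → α → List α) (a m b : List α) (h : i + 2 ≤ m.length) :
    at2 (a.length + i) f (a ++ m ++ b) = a ++ at2 i f m ++ b := by
  obtain ⟨m1, m2, m3, rfl, h1, h2⟩ := exists_split m h
  match m2, h2 with
  | [x, y], _ =>
    have e1 : a ++ (m1 ++ [x, y] ++ m3) ++ b = (a ++ m1) ++ x :: y :: (m3 ++ b) := by simp
    have e2 : m1 ++ [x, y] ++ m3 = m1 ++ x :: y :: m3 := by simp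
    rw [e1, at2_append f (a ++ m1) (m3 ++ b) x y (by simp [h1]), e2,
      at2_append f m1 m3 x y h1]
    simp

theorem ins2_window {i : ℕ} (x y : α) (a m b : List α) (h : i ≤ m.length) :
    ins2 (a.length + i) x y (a ++ m ++ b) = a ++ ins2 i x y m ++ b := by
  obtain ⟨m1, m2, m3, rfl, h1, h2⟩ := exists_split (n := 0) m (by simpa using h)
  have hm2 : m2 = [] := List.eq_nil_of_length_eq_zero h2
  subst hm2
  have e1 : a ++ (m1 ++ [] ++ m3) ++ b = (a ++ m1) ++ (m3 ++ b) := by simp
  have e2 : m1 ++ [] ++ m3 = m1 ++ m3 := by simp
  rw [e1, ins2_append x y (a ++ m1) (m3 ++ b) (by simp [h1]), e2, ins2_append x y m1 m3 h1]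
  simp

end lists

section bracket

variable {k : ℕ} {R : Type} [CommRing R]

/-- The weight of a local maximum with spins `x`, `y`. -/
def capw (A : R) (x y : Bool) : R :=
  match x, y with
  | false, true => -A ^ 2
  | true, false => 1
  | _, _ => 0

/-- The weight of a local maximum at position `i` of a state. -/
def capAt (A : R) (i : ℕ) (s : List Bool) : R :=
  match s.drop i with
  | x :: y :: _ => capw A x y
  | _ => 0

/-- The direction of the strand at position `i`. -/
def dirAt (l : List (Pt k)) (i : ℕ) : Bool := (l.map Prod.snd).getD i true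

/-- The normalization factor of a crossing. -/
def nrm (A B : R) (o d e : Bool) : R := if o == (d == e) then -B ^ 3 else -A ^ 3

/-- The (normalized) Kauffman bracket operator of a piece. -/
def op (A B : R) (l : List (Pt k)) : Piece k → (List Bool → R) → (List Bool → R)
  | .cross i o, f => fun s =>
      nrm A B o (dirAt l i) (dirAt l (i + 1)) *
      ((if o then A else B) * f s + (if o then B else A) * capAt A i s *
        (f (at2 i (fun _ _ => [false, true]) s) - B ^ 2 * f (at2 i (fun _ _ => [true, false]) s)))
  | .cap i, f => fun s => capAt A i s * f (at2 i (fun _ _ => []) s)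
  | .cup i _ _, f => fun s => f (ins2 i false true s) - B ^ 2 * f (ins2 i true false s)

/-- The bracket operator of a word. -/
def F (A B : R) : List (Pt k) → Word k → (List Bool → R) → (List Bool → R)
  | _, [], f => f
  | l, p :: w, f => op A B l p (F A B (p.lab l) w f)

theorem F_append (A B : R) (l : List (Pt k)) (u v : Word k) (f : List Bool → R) :
    F A B l (u ++ v) f = F A B l u (F A B (run l u) v f) := by
  induction u generalizing l with
  | nil => rfl
  | cons p u ih => simp only [List.cons_append, F, run, ih]

theorem run_append (l : List (Pt k)) (u v : Word k) : run l (u ++ v) = run (run l u) v := by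
  induction u generalizing l with
  | nil => rfl
  | cons p u ih => simp only [List.cons_append, run, ih]

theorem okW_append (l : List (Pt k)) (u v : Word k) :
    okW l (u ++ v) ↔ okW l u ∧ okW (run l u) v := by
  induction u generalizing l with
  | nil => simp [okW, run]
  | cons p u ih => simp only [List.cons_append, okW, run, ih, and_assoc]

/-- The piece shifted by `n`. -/
def Piece.shift (n : ℕ) (p : Piece k) : Piece k := p.put (n + p.pos)

theorem capAt_window (A : R) {i : ℕ} (a m b : List Bool) (h : i + 2 ≤ m.length) :
    capAt A (a.length + i) (a ++ m ++ b) = capAt A i m := by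
  obtain ⟨m1, m2, m3, rfl, h1, h2⟩ := exists_split m h
  match m2, h2 with
  | [x, y], _ =>
    simp only [capAt]
    have e1 : (a ++ (m1 ++ [x, y] ++ m3) ++ b).drop (a.length + i) = x :: y :: (m3 ++ b) := by
      rw [← h1]
      simp [List.drop_append]
    have e2 : (m1 ++ [x, y] ++ m3).drop i = x :: y :: m3 := by
      rw [← h1]
      simp
    rw [e1, e2]

theorem dirAt_window {i : ℕ} (a m b : List (Pt k)) (h : i < m.length) :
    dirAt (a ++ m ++ b) (a.length + i) = dirAt m i := by
  simp only [dirAt, List.map_append]
  rw [List.getD_eq_getElem?_getD, List.getD_eq_getElem?_getD, List.append_assoc,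
    List.getElem?_append_right (by simp), List.getElem?_append_left (by simpa using h)]
  simp

/-- A piece whose support lies in a window acts only on the window. -/
theorem op_window (A B : R) (p : Piece k) (la lm lb : List (Pt k)) (a m b : List Bool)
    (hl : a.length = la.length) (hm : m.length = lm.length) (hp : p.pos + p.ins ≤ m.length)
    (f : List Bool → R) :
    op A B (la ++ lm ++ lb) (p.shift a.length) f (a ++ m ++ b) =
      op A B lm p (fun m' => f (a ++ m' ++ b)) m := by
  cases p with
  | cross i o =>
    simp only [Piece.pos, Piece.ins] at hp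
    simp only [Piece.shift, Piece.put, Piece.pos, op]
    rw [capAt_window A a m b hp, at2_window _ a m b hp, at2_window _ a m b hp]
    rw [hl, dirAt_window la lm lb (by omega), show la.length + i + 1 = la.length + (i + 1) by omega,
      dirAt_window la lm lb (by omega)]
  | cap i =>
    simp only [Piece.pos, Piece.ins] at hp
    simp only [Piece.shift, Piece.put, Piece.pos, op]
    rw [capAt_window A a m b hp, at2_window _ a m b hp]
  | cup i c d =>
    simp only [Piece.pos, Piece.ins] at hp
    simp only [Piece.shift, Piece.put, Piece.pos, op]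
    rw [ins2_window _ _ a m b (by omega), ins2_window _ _ a m b (by omega)]

end bracket

end Pool.Agent.StrLink
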