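import Mathlib

set_option autoImplicit false

/-!
# String links: sliced diagrams, Turaev-Reidemeister moves, Wirtinger group, Milnor invariants

A string link diagram is cut by horizontal lines into elementary pieces, read from bottom to top.
Every piece is a crossing, a local maximum (`cap`) or a local minimum (`cup`), placed at a position
`i` (counted from `0` at the left), all other strands running straight up.
-/

namespace Pool.Agent.StrLink

/-- An intersection point of an oriented `k`-component diagram with a horizontal line: the
component, and the direction of the component at this point (`true` for upwards). -/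
abbrev Pt (k : ℕ) : Type := Fin k × Bool

/-- Elementary pieces of a diagram.
* `cross i o`: the strands at positions `i` and `i + 1` cross once; `o = true` means that the strand
  running (from bottom left to top right) from position `i` to `i + 1` passes over the other one,
  `o = false` means that it passes under it.
* `cap i`: the strands at positions `i` and `i + 1` are joined by a local maximum.
* `cup i c d`: a local minimum creates two new strands at positions `i` and `i + 1`; it belongs to
  the component `c`, and its left branch is directed upwards if `d = true`, downwards if not. -/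
inductive Piece (k : ℕ) : Type
  | cross (i : ℕ) (o : Bool) : Piece k
  | cap (i : ℕ) : Piece k
  | cup (i : ℕ) (c : Fin k) (d : Bool) : Piece k

/-- A sliced diagram: its elementary pieces, from bottom to top. -/
abbrev Word (k : ℕ) : Type := List (Piece k)

/-- Replace the entries `x`, `y` at positions `i`, `i + 1` of a list by the list `f x y`. -/
def at2 {α : Type} (i : ℕ) (f : α → α → List α) (l : List α) : List α :=
  match l.drop i with
  | x :: y :: b => l.take i ++ f x y ++ b
  | _ => l

/-- Insert `x`, `y` at positions `i`, `i + 1` of a list. -/
def ins2 {α : Type} (i : ℕ) (x y : α) (l : List α) : List α :=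
  l.take i ++ [x, y] ++ l.drop i

namespace Piece

variable {k : ℕ}

/-- The points on the horizontal line above the piece, given those on the line below it. -/
def lab : Piece k → List (Pt k) → List (Pt k)
  | cross i _ => at2 i fun p q => [q, p]
  | cap i => at2 i fun _ _ => []
  | cup i c d => ins2 i (c, d) (c, !d)

/-- The piece can be put on top of a horizontal line with the given points: the positions exist,
and a local maximum joins two strands of the same component with opposite directions. -/
def ok : Piece k → List (Pt k) → Prop
  | cross i _, l => i + 1 < l.length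
  | cap i, l => ∃ c d, l[i]? = some (c, d) ∧ l[i + 1]? = some (c, !d)
  | cup i _ _, l => i ≤ l.length

/-- Crossing change; the other pieces are unchanged. -/
def flip : Piece k → Piece k
  | cross i o => cross i !o
  | cap i => cap i
  | cup i c d => cup i c d

/-- Is the piece a crossing? -/
def IsCrossing : Piece k → Prop
  | cross _ _ => True
  | cap _ => False
  | cup _ _ _ => False

/-- The position of a piece. -/
def pos : Piece k → ℕ
  | cross i _ => i
  | cap i => i
  | cup i _ _ => i

/-- The same piece placed at position `j`. -/
def put (j : ℕ) : Piece k → Piece k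
  | cross _ o => cross j o
  | cap _ => cap j
  | cup _ c d => cup j c d

/-- The number of strands entering a piece from below. -/
def ins : Piece k → ℕ
  | cross _ _ => 2
  | cap _ => 2
  | cup _ _ _ => 0

/-- The number of strands leaving a piece at the top. -/
def outs : Piece k → ℕ
  | cross _ _ => 2
  | cap _ => 0
  | cup _ _ _ => 2

end Piece

variable {k : ℕ}

/-- The points on the top line of a diagram, given those on its bottom line. -/
def run : List (Pt k) → Word k → List (Pt k)
  | l, [] => l
  | l, p :: w => run (p.lab l) w

/-- All pieces of the diagram fit together. -/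
def okW : List (Pt k) → Word k → Prop
  | _, [] => True
  | l, p :: w => p.ok l ∧ okW (p.lab l) w

/-- No closed component is created. The list `a` contains names of the arcs to which the points of
a horizontal line belong; two points get the same name if they are joined below that line. Names
are natural numbers, `n` is the first unused one. A local minimum creates an arc with a new
name; a local maximum joins two different arcs, whose names are then identified. -/
def noClosed : ℕ → List ℕ → Word k → Prop
  | _, _, [] => True
  | n, a, .cross i _ :: w => noClosed n (at2 i (fun x y => [y, x]) a) w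
  | n, a, .cap i :: w => a.getD i 0 ≠ a.getD (i + 1) 0 ∧
      noClosed n ((at2 i (fun _ _ => []) a).map
        fun z => if z = a.getD (i + 1) 0 then a.getD i 0 else z) w
  | n, a, .cup i _ _ :: w => noClosed (n + 1) (ins2 i n n a) w

/-- The points on the bottom line and on the top line of a `k`-strand string link: the `k`
components in their order, all directed upwards. -/
def ends (k : ℕ) : List (Pt k) := List.ofFn fun j : Fin k => (j, true)

/-- The word is a diagram of a `k`-strand string link. (Since the points of `ends k` belong to
different components and there are no closed components, the `j`-th component is an arc running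
from the `j`-th bottom point to the `j`-th top point.) -/
def IsStringLink (w : Word k) : Prop :=
  okW (ends k) w ∧ run (ends k) w = ends k ∧ noClosed k (List.range k) w

/-- Diagrams of `k`-strand string links. -/
abbrev SL (k : ℕ) : Type := {w : Word k // IsStringLink w}

/-- The local moves: planar isotopies (distant pieces commute; zigzags; a strand slides over or
under a local maximum or minimum) and the three Reidemeister moves. Two sliced diagrams represent
isotopic tangles iff they are related by a sequence of these moves (Turaev; Freyd-Yetter). -/
inductive Rel : Word k → Word k → Prop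
  | far (p q : Piece k) (m : ℕ) :
      Rel [p, q.put (p.pos + p.outs + m)] [q.put (p.pos + p.ins + m), p]
  | zigzag (i : ℕ) (c : Fin k) (d : Bool) : Rel [.cup i c d, .cap (i + 1)] []
  | zigzag' (i : ℕ) (c : Fin k) (d : Bool) : Rel [.cup (i + 1) c d, .cap i] []
  | slideCap (i : ℕ) (o : Bool) :
      Rel [.cross i o, .cap (i + 1)] [.cross (i + 1) !o, .cap i]
  | slideCup (i : ℕ) (o : Bool) (c : Fin k) (d : Bool) :
      Rel [.cup (i + 1) c d, .cross i o] [.cup i c d, .cross (i + 1) !o]
  | r1Cap (i : ℕ) (o : Bool) : Rel [.cross i o, .cap i] [.cap i]
  | r1Cup (i : ℕ) (o : Bool) (c : Fin k) (d : Bool) : Rel [.cup i c d, .cross i o] [.cup i c !d]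
  | r2 (i : ℕ) (o : Bool) : Rel [.cross i o, .cross i !o] []
  /-- The third Reidemeister move. Of the three strands `1, 2, 3` (from the left), `a`, `b`, `c`
  tell whether `1` is over `2`, `1` is over `3`, `2` is over `3`; the two cyclic patterns are
  excluded. -/
  | r3 (i : ℕ) (a b c : Bool) (h : ¬ (a = c ∧ b ≠ a)) :
      Rel [.cross i a, .cross (i + 1) b, .cross i c]
        [.cross (i + 1) c, .cross i b, .cross (i + 1) a]

/-- Two diagrams differ by one local move. -/
def Move (w w' : Word k) : Prop :=
  ∃ u v a b, Rel a b ∧ w = u ++ a ++ v ∧ w' = u ++ b ++ v

/-- Change the crossings among the pieces with numbers in `S`. -/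
def switch (S : Finset ℕ) (w : Word k) : Word k :=
  w.mapIdx fun t p => if t ∈ S then p.flip else p

/-! ### Crossing changes preserve string link diagrams -/

theorem flip_lab (p : Piece k) (l : List (Pt k)) : p.flip.lab l = p.lab l := by
  cases p <;> rfl

theorem flip_ok (p : Piece k) (l : List (Pt k)) : p.flip.ok l ↔ p.ok l := by
  cases p <;> rfl

/-- `w'` is obtained from `w` by changing some crossings. -/
def Changed (w w' : Word k) : Prop := List.Forall₂ (fun p q => q = p ∨ q = p.flip) w w'

theorem changed_switch (S : Finset ℕ) (w : Word k) : Changed w (switch S w) := by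
  rw [Changed, List.forall₂_iff_get]
  refine ⟨by simp [switch], ?_⟩
  intro i h1 h2
  simp only [switch, List.get_eq_getElem, List.getElem_mapIdx]
  by_cases h : i ∈ S
  · right; simp [h]
  · left; simp [h]

theorem Changed.run_eq {w w' : Word k} (h : Changed w w') (l : List (Pt k)) :
    run l w' = run l w := by
  induction h generalizing l with
  | nil => rfl
  | cons h _ ih =>
    rcases h with rfl | rfl
    · exact ih _
    · rw [run, run, flip_lab]; exact ih _

theorem Changed.okW_iff {w w' : Word k} (h : Changed w w') (l : List (Pt k)) :
    okW l w' ↔ okW l w := by
  induction h generalizing l with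
  | nil => rfl
  | cons h _ ih =>
    rcases h with rfl | rfl
    · rw [okW, okW, ih]
    · rw [okW, okW, flip_lab, flip_ok, ih]

theorem Changed.noClosed_iff {w w' : Word k} (h : Changed w w') (n : ℕ) (a : List ℕ) :
    noClosed n a w' ↔ noClosed n a w := by
  induction h generalizing n a with
  | nil => rfl
  | @cons p q w w' h _ ih =>
    rcases h with rfl | rfl
    · cases q with
      | cross i o => exact ih _ _
      | cap i => rw [noClosed, noClosed, ih]
      | cup i c d => exact ih _ _
    · cases p with
      | cross i o => exact ih _ _
      | cap i => rw [Piece.flip, noClosed, noClosed, ih]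
      | cup i c d => exact ih _ _

/-- Crossing changes turn string link diagrams into string link diagrams. -/
theorem IsStringLink.switch {w : Word k} (h : IsStringLink w) (S : Finset ℕ) :
    IsStringLink (StrLink.switch S w) := by
  have hc := changed_switch S w
  exact ⟨(hc.okW_iff _).2 h.1, (hc.run_eq _).trans h.2.1, (hc.noClosed_iff _ _).2 h.2.2⟩

/-! ### Finite type invariants -/

/-- The space `V_n` of rational-valued invariants of `k`-strand string links of finite type of order
at most `n`: functions of diagrams which are unchanged by the moves, and whose alternating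
sum over all resolutions of any `n + 1` double points (chosen crossings) vanishes. -/
def V (k n : ℕ) : Submodule ℚ (SL k → ℚ) where
  carrier := {f | (∀ w w' : SL k, Move w.1 w'.1 → f w = f w') ∧
    ∀ (w : SL k) (T : Finset ℕ), T.card = n + 1 → (∀ t ∈ T, ∃ p, w.1[t]? = some p ∧ p.IsCrossing) →
      ∑ S ∈ T.powerset, (-1 : ℚ) ^ S.card * f ⟨switch S w.1, w.2.switch S⟩ = 0}
  zero_mem' := ⟨fun _ _ _ => rfl, fun _ _ _ _ => by simp⟩
  add_mem' := by
    rintro f g ⟨hf1, hf2⟩ ⟨hg1, hg2⟩
    refine ⟨fun w w' h => ?_, fun w T hT hc => ?_⟩
    · simp only [Pi.add_apply, hf1 w w' h, hg1 w w' h]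
    · simp only [Pi.add_apply, mul_add, Finset.sum_add_distrib, hf2 w T hT hc, hg2 w T hT hc,
        add_zero]
  smul_mem' := by
    rintro c f ⟨hf1, hf2⟩
    refine ⟨fun w w' h => ?_, fun w T hT hc => ?_⟩
    · simp only [Pi.smul_apply, hf1 w w' h]
    · have h1 : ∀ S : Finset ℕ, (-1 : ℚ) ^ S.card * (c • f) ⟨switch S w.1, w.2.switch S⟩ =
          c * ((-1 : ℚ) ^ S.card * f ⟨switch S w.1, w.2.switch S⟩) := by
        intro S
        simp only [Pi.smul_apply, smul_eq_mul]
        ring
      simp only [h1, ← Finset.mul_sum, hf2 w T hT hc, mul_zero]

/-! ### The group of a string link -/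

/-- The free group on the meridians `inl j` of the bottom points and generators `inr n` for the
local minima. -/
abbrev FG (k : ℕ) : Type := FreeGroup (Fin k ⊕ ℕ)

/-- The meridians of the points above a piece, given those of the points below it (Wirtinger
relations). The meridian of a point is the loop which passes behind the strand from right to left;
loops are composed from left to right. The meridian of an overcrossing strand is unchanged,
the one of an undercrossing strand is conjugated; `n` is the number of the local minimum. -/
def Piece.mer (n : ℕ) : Piece k → List (FG k) → List (FG k)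
  | .cross i o => at2 i fun g h => if o then [g⁻¹ * h * g, g] else [h, h * g * h⁻¹]
  | .cap i => at2 i fun _ _ => []
  | .cup i _ _ => ins2 i (FreeGroup.of (Sum.inr n)) (FreeGroup.of (Sum.inr n))⁻¹

/-- The relators of the group of a diagram; `n` counts the local minima met so far, `g` is the list
of meridians. At each local maximum the two meridians are inverse to each other; the generators
`inr m` that do not belong to a local minimum are set to `1`. -/
def relators : ℕ → List (FG k) → Word k → Set (FG k)
  | n, _, [] => {y | ∃ m, n ≤ m ∧ y = FreeGroup.of (Sum.inr m)}
  | n, g, .cross i o :: w => relators n ((Piece.cross i o : Piece k).mer n g) w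
  | n, g, .cap i :: w =>
      insert (g.getD i 1 * g.getD (i + 1) 1) (relators n ((Piece.cap i : Piece k).mer n g) w)
  | n, g, .cup i c d :: w => relators (n + 1) ((Piece.cup i c d : Piece k).mer n g) w

/-- The fundamental group of the complement of a string link, by its Wirtinger presentation. -/
abbrev group (w : SL k) : Type :=
  PresentedGroup (relators 0 (List.ofFn fun j : Fin k => FreeGroup.of (Sum.inl j)) w.1)

/-- The subspace `N_n` of the invariants in `V_n` which vanish on all string links whose complement
has free fundamental group. -/
def N (k n : ℕ) : Submodule ℚ (SL k → ℚ) where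
  carrier := {f | f ∈ V k n ∧ ∀ w : SL k, IsFreeGroup (group w) → f w = 0}
  zero_mem' := ⟨Submodule.zero_mem _, fun _ _ => rfl⟩
  add_mem' := by
    rintro f g ⟨hf1, hf2⟩ ⟨hg1, hg2⟩
    exact ⟨Submodule.add_mem _ hf1 hg1, fun w hw => by
      simp only [Pi.add_apply, hf2 w hw, hg2 w hw, add_zero]⟩
  smul_mem' := by
    rintro c f ⟨hf1, hf2⟩
    exact ⟨Submodule.smul_mem _ c hf1, fun w hw => by
      simp only [Pi.smul_apply, hf2 w hw, smul_zero]⟩

/-! ### Milnor invariants -/

/-- The sign of the crossing `cross i o` put on top of a line with points `l`: it is positive
if the strand from the lower left is over and the two strands are both directed upwards or both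
downwards, and changes with each of these conditions. -/
def crossSign (l : List (Pt k)) (i : ℕ) (o : Bool) : ℤ :=
  (if o then 1 else -1) * (if (l.map Prod.snd)[i]? = (l.map Prod.snd)[i + 1]? then 1 else -1)

/-- The sum of the signs of the self-crossings of the component `j`. -/
def writhe (j : Fin k) : List (Pt k) → Word k → ℤ
  | _, [] => 0
  | l, .cross i o :: w =>
      (if (l.map Prod.fst)[i]? = some j ∧ (l.map Prod.fst)[i + 1]? = some j then crossSign l i o
        else 0) + writhe j ((Piece.cross i o : Piece k).lab l) w
  | l, .cap i :: w => writhe j ((Piece.cap i : Piece k).lab l) w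
  | l, .cup i c d :: w => writhe j ((Piece.cup i c d : Piece k).lab l) w

section labelling

variable {Γ : Type} [Group Γ]

/-- The meridian `a⁻¹ x_c a` or `a⁻¹ x_c⁻¹ a` of a point of the component `c`, in a group
with elements `x_1, ..., x_k`, where `a` is the partial longitude of the component up to this
point. -/
def meridian (x : Fin k → Γ) (q : Pt k × Γ) : Γ :=
  q.2⁻¹ * (if q.1.2 then x q.1.1 else (x q.1.1)⁻¹) * q.2

/-- `Longitudes x U w l l'`: the word `w`, started on a line with points and partial longitudes `l`,
can be labelled by partial longitudes in `U` so that the top line has points and partial longitudes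
`l'`. The partial longitude of an overcrossing strand is unchanged, the one of an undercrossing
strand is multiplied by the meridian of the overcrossing strand (or its inverse); at local maxima
and minima it is unchanged. -/
def Longitudes (x : Fin k → Γ) (U : Set Γ) :
    Word k → List (Pt k × Γ) → List (Pt k × Γ) → Prop
  | [], l, l' => l = l'
  | .cross i o :: w, l, l' => Longitudes x U w
      (at2 i (fun p q => if o then [(q.1, q.2 * meridian x p), p]
        else [q, (p.1, p.2 * (meridian x q)⁻¹)]) l) l'
  | .cap i :: w, l, l' => (l.map Prod.snd)[i]? = (l.map Prod.snd)[i + 1]? ∧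
      Longitudes x U w (at2 i (fun _ _ => []) l) l'
  | .cup i c d :: w, l, l' => ∃ a ∈ U, Longitudes x U w (ins2 i ((c, d), a) ((c, !d), a) l) l'

end labelling

/-- The matrix `1 + ∑_{s : I s = i} E_{s,s+1}`. -/
def magnusMatrix {r : ℕ} (I : Fin r → Fin k) (i : Fin k) :
    Matrix (Fin (r + 1)) (Fin (r + 1)) ℤ :=
  fun a b => if a = b then 1 else if ∃ s : Fin r, I s = i ∧ a = s.castSucc ∧ b = s.succ then 1
    else 0

theorem det_magnusMatrix {r : ℕ} (I : Fin r → Fin k) (i : Fin k) :
    (magnusMatrix I i).det = 1 := by
  have h : (magnusMatrix I i).BlockTriangular id := by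
    intro a b hab
    simp only [id] at hab
    have h1 : a ≠ b := fun h => absurd hab (by rw [h]; exact lt_irrefl _)
    have h2 : ¬ ∃ s : Fin r, I s = i ∧ a = s.castSucc ∧ b = s.succ := by
      rintro ⟨s, -, rfl, rfl⟩
      exact absurd hab (not_lt.2 (Fin.castSucc_lt_succ (i := s)).le)
    rw [magnusMatrix, if_neg h1, if_neg h2]
  rw [Matrix.det_of_isUpperTriangular h]
  simp [magnusMatrix]

/-- The representation `x_i ↦ 1 + ∑_{s : I s = i} E_{s,s+1}` of the free group by unitriangular
integer matrices of size `r + 1`. The entry in the upper right corner of the image of `g` is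
the coefficient of `X_{I 1} X_{I 2} ... X_{I r}` in the Magnus expansion (`x_i ↦ 1 + X_i`)
of `g`. -/
def magnus {r : ℕ} (I : Fin r → Fin k) (i : Fin k) :
    Matrix.SpecialLinearGroup (Fin (r + 1)) ℤ :=
  ⟨magnusMatrix I i, det_magnusMatrix I i⟩

/-- Upper unitriangular integer matrices. -/
def unitri (r : ℕ) : Set (Matrix.SpecialLinearGroup (Fin (r + 1)) ℤ) :=
  {M | ∀ a b, b ≤ a → M.1 a b = if a = b then 1 else 0}

/-- `f` is Milnor's invariant `μ(I 1, ..., I r; j)` of string links: the value `f w` is the
coefficient of `X_{I 1} ... X_{I r}` in the Magnus expansion of the `j`-th longitude, where the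
longitude has been multiplied by a power of `x_j` to make its framing (the exponent sum of `x_j`)
zero. -/
def IsMilnor {r : ℕ} (I : Fin r → Fin k) (j : Fin k) (f : SL k → ℚ) : Prop :=
  ∀ (w : SL k) (l : List (Pt k × Matrix.SpecialLinearGroup (Fin (r + 1)) ℤ)),
    Longitudes (magnus I) (unitri r) w.1 ((ends k).map fun p => (p, 1)) l →
    f w = (((magnus I j) ^ (-writhe j (ends k) w.1) * (l.map Prod.snd).getD j 1).1 0 (Fin.last r) : ℤ)

/-- The subspace `M_n` of the invariants in `V_n` which are polynomials in Milnor invariants, i.e.
linear combinations of constants and products of Milnor invariants. -/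
def M (k n : ℕ) : Submodule ℚ (SL k → ℚ) :=
  V k n ⊓ Subalgebra.toSubmodule
    (Algebra.adjoin ℚ {f : SL k → ℚ | ∃ (r : ℕ) (I : Fin r → Fin k) (j : Fin k), IsMilnor I j f})

end Pool.Agent.StrLink
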