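import Pool.Agent.StrLink.Inv

set_option autoImplicit false

namespace Pool.Agent.StrLink

variable {k : ℕ} {R : Type} [CommRing R]

/-- Bracket operators are linear combinations of three evaluations. -/
theorem op_form' (A B : R) (lm : List (Pt k)) (p : Piece k) (m : List Bool) :
    ∃ (c0 c1 c2 : R) (u0 u1 u2 : List Bool),
      ∀ g, op A B lm p g m = c0 * g u0 + c1 * g u1 + c2 * g u2 := by
  cases p with
  | cross i o =>
    refine ⟨nrm A B o (dirAt lm i) (dirAt lm (i + 1)) * (if o then A else B),
      nrm A B o (dirAt lm i) (dirAt lm (i + 1)) * ((if o then B else A) * capAt A i m),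
      - (nrm A B o (dirAt lm i) (dirAt lm (i + 1)) * ((if o then B else A) * capAt A i m) * B ^ 2),
      m, at2 i (fun _ _ => [false, true]) m, at2 i (fun _ _ => [true, false]) m, fun g => ?_⟩
    simp only [op]
    ring
  | cap i =>
    refine ⟨capAt A i m, 0, 0, at2 i (fun _ _ => []) m, at2 i (fun _ _ => []) m,
      at2 i (fun _ _ => []) m, fun g => ?_⟩
    simp only [op]
    ring
  | cup i c d =>
    refine ⟨1, -B ^ 2, 0, ins2 i false true m, ins2 i true false m, ins2 i true false m,
      fun g => ?_⟩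
    simp only [op]
    ring

theorem op_sum (A B : R) (l : List (Pt k)) (p : Piece k) (s : List Bool) {ι : Type}
    (I : Finset ι) (c : ι → R) (g : ι → List Bool → R) :
    op A B l p (fun u => ∑ x ∈ I, c x * g x u) s = ∑ x ∈ I, c x * op A B l p (g x) s := by
  obtain ⟨c0, c1, c2, u0, u1, u2, h⟩ := op_form' A B l p s
  simp only [h, Finset.mul_sum, ← Finset.sum_add_distrib]
  apply Finset.sum_congr rfl
  intro x _
  ring

theorem op_dvd (A B : R) (l : List (Pt k)) (p : Piece k) (s : List Bool) {h : R}
    {g : List Bool → R} (hg : ∀ u, h ∣ g u) : h ∣ op A B l p g s := by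
  obtain ⟨c0, c1, c2, u0, u1, u2, hf⟩ := op_form' A B l p s
  rw [hf]
  exact dvd_add (dvd_add ((hg _).mul_left _) ((hg _).mul_left _)) ((hg _).mul_left _)

theorem coeff1_dvd {A B e : R} (he : e ∣ A - B) (o d1 d2 : Bool) :
    e ∣ nrm A B o d1 d2 * (if o then A else B) -
      nrm A B (!o) d1 d2 * (if !o then A else B) := by
  obtain ⟨x, hx⟩ := he
  cases o <;> cases d1 <;> cases d2 <;> simp [nrm]
  · exact ⟨-(A * B * (A + B)) * x, by linear_combination (-(A * B * (A + B))) * hx⟩
  · exact ⟨((A + B) * (A ^ 2 + B ^ 2)) * x,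
      by linear_combination ((A + B) * (A ^ 2 + B ^ 2)) * hx⟩
  · exact ⟨((A + B) * (A ^ 2 + B ^ 2)) * x,
      by linear_combination ((A + B) * (A ^ 2 + B ^ 2)) * hx⟩
  · exact ⟨-(A * B * (A + B)) * x, by linear_combination (-(A * B * (A + B))) * hx⟩
  · exact ⟨(A * B * (A + B)) * x, by linear_combination (A * B * (A + B)) * hx⟩
  · exact ⟨-((A + B) * (A ^ 2 + B ^ 2)) * x,
      by linear_combination (-((A + B) * (A ^ 2 + B ^ 2))) * hx⟩
  · exact ⟨-((A + B) * (A ^ 2 + B ^ 2)) * x,
      by linear_combination (-((A + B) * (A ^ 2 + B ^ 2))) * hx⟩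
  · exact ⟨(A * B * (A + B)) * x, by linear_combination (A * B * (A + B)) * hx⟩

theorem coeff2_dvd {A B e : R} (he : e ∣ A - B) (o d1 d2 : Bool) :
    e ∣ nrm A B o d1 d2 * (if o then B else A) -
      nrm A B (!o) d1 d2 * (if !o then B else A) := by
  obtain ⟨x, hx⟩ := he
  cases o <;> cases d1 <;> cases d2 <;> simp [nrm]
  · exact ⟨-((A + B) * (A ^ 2 + B ^ 2)) * x,
      by linear_combination (-((A + B) * (A ^ 2 + B ^ 2))) * hx⟩
  · exact ⟨(A * B * (A + B)) * x, by linear_combination (A * B * (A + B)) * hx⟩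
  · exact ⟨(A * B * (A + B)) * x, by linear_combination (A * B * (A + B)) * hx⟩
  · exact ⟨-((A + B) * (A ^ 2 + B ^ 2)) * x,
      by linear_combination (-((A + B) * (A ^ 2 + B ^ 2))) * hx⟩
  · exact ⟨((A + B) * (A ^ 2 + B ^ 2)) * x,
      by linear_combination ((A + B) * (A ^ 2 + B ^ 2)) * hx⟩
  · exact ⟨-(A * B * (A + B)) * x, by linear_combination (-(A * B * (A + B))) * hx⟩
  · exact ⟨-(A * B * (A + B)) * x, by linear_combination (-(A * B * (A + B))) * hx⟩
  · exact ⟨((A + B) * (A ^ 2 + B ^ 2)) * x,
      by linear_combination ((A + B) * (A ^ 2 + B ^ 2)) * hx⟩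

/-- The difference of the two operators of a crossing is divisible by `A - B`. -/
theorem op_sub_flip_dvd (A B : R) (l : List (Pt k)) (p : Piece k) (hp : p.IsCrossing)
    (s : List Bool) {h e : R} (he : e ∣ A - B) {g : List Bool → R} (hg : ∀ u, h ∣ g u) :
    h * e ∣ op A B l p g s - op A B l p.flip g s := by
  cases p with
  | cap i => exact hp.elim
  | cup i c d => exact hp.elim
  | cross i o =>
    obtain ⟨y, hy⟩ := hg s
    obtain ⟨z, hz⟩ := hg (at2 i (fun _ _ => [false, true]) s)
    obtain ⟨t, ht⟩ := hg (at2 i (fun _ _ => [true, false]) s)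
    obtain ⟨x1, hx1⟩ := coeff1_dvd he o (dirAt l i) (dirAt l (i + 1))
    obtain ⟨x2, hx2⟩ := coeff2_dvd he o (dirAt l i) (dirAt l (i + 1))
    simp only [op, Piece.flip]
    rw [hy, hz, ht]
    refine ⟨x1 * y + x2 * (capAt A i s * (z - B ^ 2 * t)), ?_⟩
    linear_combination (h * y) * hx1 + (h * (capAt A i s * (z - B ^ 2 * t))) * hx2

theorem switch_nil (S : Finset ℕ) : switch S ([] : Word k) = [] := rfl

theorem switch_cons (S : Finset ℕ) (p : Piece k) (w : Word k) :
    switch (S.image Nat.succ) (p :: w) = p :: switch S w := by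
  simp [switch, List.mapIdx_cons]

theorem switch_insert (S : Finset ℕ) (p : Piece k) (w : Word k) :
    switch (insert 0 (S.image Nat.succ)) (p :: w) = p.flip :: switch S w := by
  simp [switch, List.mapIdx_cons]

theorem exists_image_succ (T : Finset ℕ) :
    ∃ T' : Finset ℕ, T = T'.image Nat.succ ∨ T = insert 0 (T'.image Nat.succ) := by
  refine ⟨(T.erase 0).image Nat.pred, ?_⟩
  have h : ((T.erase 0).image Nat.pred).image Nat.succ = T.erase 0 := by
    ext x
    simp only [Finset.mem_image, Finset.mem_erase]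
    constructor
    · rintro ⟨y, ⟨z, ⟨hz, hzT⟩, rfl⟩, rfl⟩
      rw [Nat.succ_pred_eq_of_ne_zero hz]
      exact ⟨hz, hzT⟩
    · rintro ⟨hx, hxT⟩
      exact ⟨x.pred, ⟨x, ⟨hx, hxT⟩, rfl⟩, Nat.succ_pred_eq_of_ne_zero hx⟩
  by_cases h0 : 0 ∈ T
  · right
    rw [h, Finset.insert_erase h0]
  · left
    rw [h, Finset.erase_eq_of_notMem h0]

theorem sum_powerset_image {M : Type} [AddCommMonoid M] (T : Finset ℕ) (g : Finset ℕ → M) :
    ∑ S ∈ (T.image Nat.succ).powerset, g S = ∑ S ∈ T.powerset, g (S.image Nat.succ) := by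
  rw [Finset.powerset_image, Finset.sum_image]
  intro a _ b _ hab
  exact Finset.image_injective Nat.succ_injective hab

/-- The alternating sums of the bracket over `n` crossings are divisible by `(A - B)^n`. -/
theorem alt_dvd {A B e : R} (he : e ∣ A - B) (w : Word k) (l : List (Pt k)) (T : Finset ℕ)
    (hT : ∀ t ∈ T, ∃ p, w[t]? = some p ∧ p.IsCrossing) (f : List Bool → R) (s : List Bool) :
    e ^ T.card ∣ ∑ S ∈ T.powerset, (-1 : R) ^ S.card * F A B l (switch S w) f s := by
  induction w generalizing l T s with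
  | nil =>
    have : T = ∅ := by
      rw [Finset.eq_empty_iff_forall_notMem]
      intro t ht
      obtain ⟨p, hp, -⟩ := hT t ht
      simp at hp
    subst this
    simp
  | cons p w ih =>
    obtain ⟨T', hT' | hT'⟩ := exists_image_succ T
    · subst hT'
      have hTw : ∀ t ∈ T', ∃ q, w[t]? = some q ∧ q.IsCrossing := by
        intro t ht
        obtain ⟨q, hq, hq'⟩ := hT (t + 1) (Finset.mem_image_of_mem _ ht)
        exact ⟨q, by simpa using hq, hq'⟩
      rw [sum_powerset_image, Finset.card_image_of_injective _ Nat.succ_injective]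
      have h1 : ∀ S ∈ T'.powerset, (-1 : R) ^ (S.image Nat.succ).card *
          F A B l (switch (S.image Nat.succ) (p :: w)) f s =
          (-1 : R) ^ S.card * op A B l p (F A B (p.lab l) (switch S w) f) s := by
        intro S _
        rw [Finset.card_image_of_injective _ Nat.succ_injective, switch_cons, F]
      rw [Finset.sum_congr rfl h1, ← op_sum]
      exact op_dvd A B l p s fun u => ih (p.lab l) T' hTw u
    · subst hT'
      have h0 : 0 ∉ T'.image Nat.succ := by simp
      have hTw : ∀ t ∈ T', ∃ q, w[t]? = some q ∧ q.IsCrossing := by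
        intro t ht
        obtain ⟨q, hq, hq'⟩ := hT (t + 1) (Finset.mem_insert_of_mem (Finset.mem_image_of_mem _ ht))
        exact ⟨q, by simpa using hq, hq'⟩
      have hp : p.IsCrossing := by
        obtain ⟨q, hq, hq'⟩ := hT 0 (Finset.mem_insert_self _ _)
        simp at hq
        rwa [hq]
      rw [Finset.sum_powerset_insert h0, sum_powerset_image, sum_powerset_image,
        Finset.card_insert_of_notMem h0, Finset.card_image_of_injective _ Nat.succ_injective]
      have h1 : ∀ S ∈ T'.powerset, (-1 : R) ^ (S.image Nat.succ).card *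
          F A B l (switch (S.image Nat.succ) (p :: w)) f s =
          (-1 : R) ^ S.card * op A B l p (F A B (p.lab l) (switch S w) f) s := by
        intro S _
        rw [Finset.card_image_of_injective _ Nat.succ_injective, switch_cons, F]
      have h2 : ∀ S ∈ T'.powerset, (-1 : R) ^ (insert 0 (S.image Nat.succ)).card *
          F A B l (switch (insert 0 (S.image Nat.succ)) (p :: w)) f s =
          - ((-1 : R) ^ S.card * op A B l p.flip (F A B (p.lab l) (switch S w) f) s) := by
        intro S _
        have h0S : 0 ∉ S.image Nat.succ := by simp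
        rw [Finset.card_insert_of_notMem h0S, Finset.card_image_of_injective _ Nat.succ_injective,
          switch_insert, F, flip_lab, pow_succ]
        ring
      rw [Finset.sum_congr rfl h1, Finset.sum_congr rfl h2, Finset.sum_neg_distrib,
        ← sub_eq_add_neg, ← op_sum, ← op_sum, pow_succ]
      exact op_sub_flip_dvd A B l p hp s he fun u => ih (p.lab l) T' hTw u

end Pool.Agent.StrLink
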