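import Pool.Agent.StrLink.Inv2

set_option autoImplicit false

namespace Pool.Agent.StrLink

section groups

variable {n : ℕ}

/-- A criterion for a presented group to be free. -/
theorem free_of_maps {α β : Type} (rels : Set (FreeGroup α)) (φ : α → FreeGroup β)
    (ψ : β → FreeGroup α) (h1 : ∀ r ∈ rels, FreeGroup.lift φ r = 1)
    (h2 : ∀ b, FreeGroup.lift φ (ψ b) = FreeGroup.of b)
    (h3 : ∀ a, PresentedGroup.mk rels (FreeGroup.lift ψ (φ a)) =
      PresentedGroup.mk rels (FreeGroup.of a)) : IsFreeGroup (PresentedGroup rels) := by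
  set f : PresentedGroup rels →* FreeGroup β := PresentedGroup.toGroup h1 with hf
  set g : FreeGroup β →* PresentedGroup rels :=
    FreeGroup.lift (fun b => PresentedGroup.mk rels (ψ b)) with hg
  have hfmk : ∀ x, f (PresentedGroup.mk rels x) = FreeGroup.lift φ x := by
    intro x
    have : f.comp (PresentedGroup.mk rels) = FreeGroup.lift φ := by
      ext a
      simp only [MonoidHom.comp_apply, FreeGroup.lift_apply_of]
      exact PresentedGroup.toGroup.of h1
    exact DFunLike.congr_fun this x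
  have hglift : ∀ x, g x = PresentedGroup.mk rels (FreeGroup.lift ψ x) := by
    intro x
    have : g = (PresentedGroup.mk rels).comp (FreeGroup.lift ψ) := by
      ext b
      simp [hg]
    rw [this]
    rfl
  have hfg : f.comp g = MonoidHom.id _ := by
    ext b
    simp only [MonoidHom.comp_apply, MonoidHom.id_apply, hg, FreeGroup.lift_apply_of]
    rw [hfmk, h2]
  have hgf : g.comp f = MonoidHom.id _ := by
    apply PresentedGroup.ext
    intro a
    show g (f (PresentedGroup.mk rels (FreeGroup.of a))) = PresentedGroup.mk rels (FreeGroup.of a)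
    rw [hfmk, FreeGroup.lift_apply_of, hglift, h3]
  exact IsFreeGroup.ofMulEquiv (MonoidHom.toMulEquiv g f hfg hgf)

/-- The meridians of the bottom points. -/
theorem bottom_eq (n : ℕ) : (List.ofFn fun j : Fin (n + 2) => (FreeGroup.of (Sum.inl j) : FG (n + 2)))
    = FreeGroup.of (Sum.inl 0) :: FreeGroup.of (Sum.inl 1) ::
      List.ofFn fun j : Fin n => FreeGroup.of (Sum.inl j.succ.succ) := by
  simp only [List.ofFn_succ]
  rfl

theorem group_nil_free (m : ℕ) : IsFreeGroup (group ⟨([] : Word m), nil_isStringLink m⟩) := by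
  apply free_of_maps _ (Sum.elim (fun j => FreeGroup.of j) (fun _ => 1))
    (fun j => FreeGroup.of (Sum.inl j))
  · rintro r ⟨m, -, rfl⟩
    simp
  · intro b
    simp
  · rintro (j | m)
    · simp
    · simp only [Sum.elim_inr, map_one]
      symm
      exact PresentedGroup.one_of_mem ⟨m, Nat.zero_le m, rfl⟩

/-- The relators of the test diagrams. -/
def rels (r : FG (n + 2)) : Set (FG (n + 2)) :=
  insert r {y | ∃ m, 1 ≤ m ∧ y = FreeGroup.of (Sum.inr m)}

/-- Generators of the free group. -/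
abbrev gx (j : Fin (n + 2)) : FG (n + 2) := FreeGroup.of (Sum.inl j)

/-- The generator of the local minimum. -/
abbrev gy : FG (n + 2) := FreeGroup.of (Sum.inr 0)

theorem free_rels (r : FG (n + 2)) (φ : Fin (n + 2) ⊕ ℕ → FreeGroup (Fin (n + 2)))
    (ψ : Fin (n + 2) → FG (n + 2)) (h0 : FreeGroup.lift φ r = 1)
    (h1 : ∀ m, 1 ≤ m → φ (Sum.inr m) = 1)
    (h2 : ∀ b, FreeGroup.lift φ (ψ b) = FreeGroup.of b)
    (h3 : ∀ j : Fin n, FreeGroup.lift ψ (φ (Sum.inl j.succ.succ)) = gx j.succ.succ)
    (h4 : PresentedGroup.mk (rels r) r = 1 →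
      PresentedGroup.mk (rels r) (FreeGroup.lift ψ (φ (Sum.inl 0))) =
        PresentedGroup.mk (rels r) (gx 0) ∧
      PresentedGroup.mk (rels r) (FreeGroup.lift ψ (φ (Sum.inl 1))) =
        PresentedGroup.mk (rels r) (gx 1) ∧
      PresentedGroup.mk (rels r) (FreeGroup.lift ψ (φ (Sum.inr 0))) =
        PresentedGroup.mk (rels r) gy) :
    IsFreeGroup (PresentedGroup (rels r)) := by
  have hr : PresentedGroup.mk (rels r) r = 1 := PresentedGroup.one_of_mem (Set.mem_insert _ _)
  obtain ⟨g1, g2, g3⟩ := h4 hr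
  apply free_of_maps _ φ ψ
  · rintro s (rfl | ⟨m, hm, rfl⟩)
    · exact h0
    · rw [FreeGroup.lift_apply_of]
      exact h1 m hm
  · exact h2
  · rintro (j | m)
    · refine Fin.cases g1 (fun j => ?_) j
      refine Fin.cases g2 (fun j => ?_) j
      rw [h3]
    · rcases Nat.eq_zero_or_pos m with rfl | hm
      · exact g3
      · rw [h1 m hm, map_one, map_one]
        symm
        exact PresentedGroup.one_of_mem (Set.mem_insert_of_mem _ ⟨m, hm, rfl⟩)

/-- Relator `y = w(x)`. -/
theorem free_case_y (w : FG (n + 2)) (hw : w = (gx 0)⁻¹ * gx 1 * gx 0 ∨ w = gx 1) :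
    IsFreeGroup (PresentedGroup (rels (w * gy⁻¹))) := by
  set ι : Fin (n + 2) → FreeGroup (Fin (n + 2)) := FreeGroup.of with hι
  set ψ : Fin (n + 2) → FG (n + 2) := fun j => gx j with hψ
  set W : FreeGroup (Fin (n + 2)) := if w = gx 1 then ι 1 else (ι 0)⁻¹ * ι 1 * ι 0 with hW
  have hψW : FreeGroup.lift ψ W = w := by
    by_cases h : w = gx 1
    · rw [hW, if_pos h, h]
      simp [hι, hψ]
    · rw [hW, if_neg h, hw.resolve_right h]
      simp [hι, hψ]
  set φ : Fin (n + 2) ⊕ ℕ → FreeGroup (Fin (n + 2)) :=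
    Sum.elim ι (fun m => if m = 0 then W else 1) with hφ
  have hφw : FreeGroup.lift φ w = W := by
    by_cases h : w = gx 1
    · rw [hW, if_pos h, h]
      simp [hφ]
    · rw [hW, if_neg h, hw.resolve_right h]
      simp [hφ]
  apply free_rels _ φ ψ
  · rw [map_mul, hφw]
    simp [hφ]
  · intro m hm
    have : m ≠ 0 := by omega
    simp [hφ, this]
  · intro b
    simp [hψ, hφ, hι]
  · intro j
    simp [hφ, hψ, hι]
  · intro h
    refine ⟨by simp [hφ, hψ, hι], by simp [hφ, hψ, hι], ?_⟩
    have : φ (Sum.inr 0) = W := by simp [hφ]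
    rw [this, hψW]
    rw [map_mul, map_inv] at h
    exact mul_inv_eq_one.1 h

/-- The case of the trefoil with a tunnel. -/
theorem free_case_a (r : FG (n + 2))
    (hr : r = (gx 0)⁻¹ * ((gx 1)⁻¹ * (gy⁻¹ * gx 1) * gx 1 * ((gx 1)⁻¹ * gy * gx 1)) * gx 0 *
      gy⁻¹) : IsFreeGroup (PresentedGroup (rels r)) := by
  set z : FreeGroup (Fin (n + 2)) := FreeGroup.of 0 with hz
  set y : FreeGroup (Fin (n + 2)) := FreeGroup.of 1 with hy
  set W : FreeGroup (Fin (n + 2)) := y * z * y * z⁻¹ * y⁻¹ with hW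
  set ψ : Fin (n + 2) → FG (n + 2) := fun j => if j = 0 then gx 1 * gx 0 else
    if j = 1 then gy else gx j with hψ
  set φ : Fin (n + 2) ⊕ ℕ → FreeGroup (Fin (n + 2)) :=
    Sum.elim (fun j => if j = 0 then W⁻¹ * z else if j = 1 then W else FreeGroup.of j)
      (fun m => if m = 0 then y else 1) with hφ
  have hψz : FreeGroup.lift ψ z = gx 1 * gx 0 := by simp [hz, hψ]
  have hψy : FreeGroup.lift ψ y = gy := by simp [hy, hψ]
  have hφ0 : FreeGroup.lift φ (gx 0) = W⁻¹ * z := by simp [hφ]
  have hφ1 : FreeGroup.lift φ (gx 1) = W := by simp [hφ]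
  have hφy : FreeGroup.lift φ gy = y := by simp [hφ]
  apply free_rels r φ ψ
  · rw [hr]
    simp only [map_mul, map_inv, hφ0, hφ1, hφy, hW]
    group
  · intro m hm
    have : m ≠ 0 := by omega
    simp [hφ, this]
  · intro b
    by_cases hb0 : b = 0
    · subst hb0
      have : ψ 0 = gx 1 * gx 0 := by simp [hψ]
      rw [this, map_mul, hφ0, hφ1, mul_inv_cancel_left]
    · by_cases hb1 : b = 1
      · subst hb1
        have : ψ 1 = gy := by simp [hψ]
        rw [this, hφy]
      · have : ψ b = gx b := by simp [hψ, hb0, hb1]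
        rw [this]
        simp [hφ, hb0, hb1]
  · intro j
    have h0 : j.succ.succ ≠ 0 := Fin.succ_ne_zero _
    have h1 : j.succ.succ ≠ 1 := by
      intro h
      exact Fin.succ_ne_zero j (Fin.succ_injective _ h)
    have : φ (Sum.inl j.succ.succ) = FreeGroup.of j.succ.succ := by
      simp only [hφ, Sum.elim_inl, if_neg h0, if_neg h1]
    rw [this, FreeGroup.lift_apply_of]
    simp only [hψ, if_neg h0, if_neg h1]
  · intro h
    set q := PresentedGroup.mk (rels r) with hq
    have e1 : FreeGroup.lift ψ W = gy * (gx 1 * gx 0) * gy * (gx 1 * gx 0)⁻¹ * gy⁻¹ := by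
      simp only [hW, map_mul, map_inv, hψz, hψy]
    have e2 : (q (gx 0))⁻¹ * (q (gx 1))⁻¹ * (q gy)⁻¹ * q (gx 1) * q gy * q (gx 1) * q (gx 0) =
        q gy := by
      rw [congrArg q hr] at h
      simp only [map_mul, map_inv] at h
      rw [mul_inv_eq_one] at h
      refine Eq.trans ?_ h
      group
    have e3 : q (FreeGroup.lift ψ W) = q (gx 1) := by
      rw [e1]
      simp only [map_mul, map_inv]
      calc q gy * (q (gx 1) * q (gx 0)) * q gy * (q (gx 1) * q (gx 0))⁻¹ * (q gy)⁻¹
          = q gy * (q (gx 1) * q (gx 0)) * ((q (gx 0))⁻¹ * (q (gx 1))⁻¹ * (q gy)⁻¹ * q (gx 1) *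
            q gy * q (gx 1) * q (gx 0)) * (q (gx 1) * q (gx 0))⁻¹ * (q gy)⁻¹ := by rw [e2]
        _ = q (gx 1) := by group
    have f0 : φ (Sum.inl 0) = W⁻¹ * z := by simp [hφ]
    have f1 : φ (Sum.inl 1) = W := by simp [hφ]
    have f2 : φ (Sum.inr 0) = y := by simp [hφ]
    refine ⟨?_, ?_, ?_⟩
    · rw [f0, map_mul, map_inv, map_mul, map_inv, e3, hψz, map_mul]
      group
    · rw [f1, e3]
    · rw [f2, hψy]

/-- The case of two switched crossings. -/
theorem free_case_b (r : FG (n + 2))
    (hr : r = (gx 0)⁻¹ * (gy * gx 1 * gy⁻¹) * gx 0 * gy⁻¹) :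
    IsFreeGroup (PresentedGroup (rels r)) := by
  set z : FreeGroup (Fin (n + 2)) := FreeGroup.of 0 with hz
  set y : FreeGroup (Fin (n + 2)) := FreeGroup.of 1 with hy
  set W : FreeGroup (Fin (n + 2)) := y⁻¹ * z * y * z⁻¹ * y with hW
  set ψ : Fin (n + 2) → FG (n + 2) := fun j => if j = 1 then gy else gx j with hψ
  set φ : Fin (n + 2) ⊕ ℕ → FreeGroup (Fin (n + 2)) :=
    Sum.elim (fun j => if j = 1 then W else FreeGroup.of j)
      (fun m => if m = 0 then y else 1) with hφ
  have hψz : FreeGroup.lift ψ z = gx 0 := by simp [hz, hψ]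
  have hψy : FreeGroup.lift ψ y = gy := by simp [hy, hψ]
  have hφ0 : FreeGroup.lift φ (gx 0) = z := by simp [hφ, hz]
  have hφ1 : FreeGroup.lift φ (gx 1) = W := by simp [hφ]
  have hφy : FreeGroup.lift φ gy = y := by simp [hφ]
  apply free_rels r φ ψ
  · rw [hr]
    simp only [map_mul, map_inv, hφ0, hφ1, hφy, hW]
    group
  · intro m hm
    have : m ≠ 0 := by omega
    simp [hφ, this]
  · intro b
    by_cases hb1 : b = 1
    · subst hb1
      have : ψ 1 = gy := by simp [hψ]
      rw [this, hφy]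
    · have : ψ b = gx b := by simp [hψ, hb1]
      rw [this]
      simp [hφ, hb1]
  · intro j
    have h1 : j.succ.succ ≠ 1 := by
      intro h
      exact Fin.succ_ne_zero j (Fin.succ_injective _ h)
    have : φ (Sum.inl j.succ.succ) = FreeGroup.of j.succ.succ := by
      simp only [hφ, Sum.elim_inl, if_neg h1]
    rw [this, FreeGroup.lift_apply_of]
    simp only [hψ, if_neg h1]
  · intro h
    set q := PresentedGroup.mk (rels r) with hq
    have e1 : FreeGroup.lift ψ W = gy⁻¹ * gx 0 * gy * (gx 0)⁻¹ * gy := by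
      simp only [hW, map_mul, map_inv, hψz, hψy]
    have e2 : (q (gx 0))⁻¹ * q gy * q (gx 1) * (q gy)⁻¹ * q (gx 0) = q gy := by
      rw [congrArg q hr] at h
      simp only [map_mul, map_inv] at h
      rw [mul_inv_eq_one] at h
      refine Eq.trans ?_ h
      group
    have e3 : q (FreeGroup.lift ψ W) = q (gx 1) := by
      rw [e1]
      simp only [map_mul, map_inv]
      calc (q gy)⁻¹ * q (gx 0) * q gy * (q (gx 0))⁻¹ * q gy
          = (q gy)⁻¹ * q (gx 0) * ((q (gx 0))⁻¹ * q gy * q (gx 1) * (q gy)⁻¹ * q (gx 0)) *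
            (q (gx 0))⁻¹ * q gy := by rw [e2]
        _ = q (gx 1) := by group
    have f0 : φ (Sum.inl 0) = z := by simp [hφ, hz]
    have f1 : φ (Sum.inl 1) = W := by simp [hφ]
    have f2 : φ (Sum.inr 0) = y := by simp [hφ]
    refine ⟨?_, ?_, ?_⟩
    · rw [f0, hψz]
    · rw [f1, e3]
    · rw [f2, hψy]

/-- The remaining case. -/
theorem free_case_e (r : FG (n + 2)) (hr : r = gy * gx 1 * gy⁻¹ * gy⁻¹) :
    IsFreeGroup (PresentedGroup (rels r)) := by
  set ψ : Fin (n + 2) → FG (n + 2) := fun j => gx j with hψ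
  set φ : Fin (n + 2) ⊕ ℕ → FreeGroup (Fin (n + 2)) :=
    Sum.elim FreeGroup.of (fun m => if m = 0 then FreeGroup.of 1 else 1) with hφ
  apply free_rels _ φ ψ
  · rw [hr]
    simp [hφ]
  · intro m hm
    have : m ≠ 0 := by omega
    simp [hφ, this]
  · intro b
    simp [hψ, hφ]
  · intro j
    simp [hφ, hψ]
  · intro h
    refine ⟨by simp [hφ, hψ], by simp [hφ, hψ], ?_⟩
    have : φ (Sum.inr 0) = FreeGroup.of 1 := by simp [hφ]
    rw [this, FreeGroup.lift_apply_of]
    set q := PresentedGroup.mk (rels r) with hq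
    rw [congrArg q hr] at h
    simp only [map_mul, map_inv] at h
    rw [mul_inv_eq_one] at h
    show q (gx 1) = q gy
    have h2 : q gy * q (gx 1) = q gy * q gy := by
      calc q gy * q (gx 1) = q gy * q (gx 1) * (q gy)⁻¹ * q gy := by group
        _ = q gy * q gy := by rw [h]
    exact mul_left_cancel h2

theorem group_free_a : IsFreeGroup (group ⟨W3 (1 : Fin (n + 2)) true true true,
    W3_isStringLink n _ _ _⟩) := by
  have h : relators 0 (List.ofFn fun j : Fin (n + 2) => FreeGroup.of (Sum.inl j))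
      (W3 1 true true true) = rels ((gx 0)⁻¹ * ((gx 1)⁻¹ * (gy⁻¹ * gx 1) * gx 1 *
        ((gx 1)⁻¹ * gy * gx 1)) * gx 0 * gy⁻¹) := by
    rw [bottom_eq]
    simp [W3, relators, Piece.mer, at2, ins2, rels]
  show IsFreeGroup (PresentedGroup (relators 0 _ _))
  rw [h]
  exact free_case_a _ rfl

theorem group_free_b : IsFreeGroup (group ⟨W3 (1 : Fin (n + 2)) false false true,
    W3_isStringLink n _ _ _⟩) := by
  have h : relators 0 (List.ofFn fun j : Fin (n + 2) => FreeGroup.of (Sum.inl j))
      (W3 1 false false true) = rels ((gx 0)⁻¹ * (gy * gx 1 * gy⁻¹) * gx 0 * gy⁻¹) := by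
    rw [bottom_eq]
    simp [W3, relators, Piece.mer, at2, ins2, rels]
  show IsFreeGroup (PresentedGroup (relators 0 _ _))
  rw [h]
  exact free_case_b _ rfl

theorem group_free_c (a b : Bool) (hb : b = !a) :
    IsFreeGroup (group ⟨W3 (1 : Fin (n + 2)) a b true, W3_isStringLink n _ _ _⟩) := by
  subst hb
  have h : relators 0 (List.ofFn fun j : Fin (n + 2) => FreeGroup.of (Sum.inl j))
      (W3 1 a (!a) true) = rels (((gx 0)⁻¹ * gx 1 * gx 0) * gy⁻¹) := by
    rw [bottom_eq]
    cases a
    · simp [W3, relators, Piece.mer, at2, ins2, rels]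
      congr 1
      group
    · simp [W3, relators, Piece.mer, at2, ins2, rels]
  show IsFreeGroup (PresentedGroup (relators 0 _ _))
  rw [h]
  exact free_case_y _ (Or.inl rfl)

theorem group_free_d (a b : Bool) (hb : b = !a) :
    IsFreeGroup (group ⟨W3 (1 : Fin (n + 2)) a b false, W3_isStringLink n _ _ _⟩) := by
  subst hb
  have h : relators 0 (List.ofFn fun j : Fin (n + 2) => FreeGroup.of (Sum.inl j))
      (W3 1 a (!a) false) = rels ((gx 1) * gy⁻¹) := by
    rw [bottom_eq]
    cases a
    · simp [W3, relators, Piece.mer, at2, ins2, rels]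
      congr 1
      group
    · simp [W3, relators, Piece.mer, at2, ins2, rels]
      congr 1
      group
  show IsFreeGroup (PresentedGroup (relators 0 _ _))
  rw [h]
  exact free_case_y _ (Or.inr rfl)

theorem group_free_e : IsFreeGroup (group ⟨W3 (1 : Fin (n + 2)) false false false,
    W3_isStringLink n _ _ _⟩) := by
  have h : relators 0 (List.ofFn fun j : Fin (n + 2) => FreeGroup.of (Sum.inl j))
      (W3 1 false false false) = rels (gy * gx 1 * gy⁻¹ * gy⁻¹) := by
    rw [bottom_eq]
    simp [W3, relators, Piece.mer, at2, ins2, rels]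
    congr 1
    group
  show IsFreeGroup (PresentedGroup (relators 0 _ _))
  rw [h]
  exact free_case_e _ rfl

/-- All test diagrams except the one with a local trefoil have a free group. -/
theorem group_free (a b e : Bool) (h : ¬ (a = true ∧ b = true ∧ e = false)) :
    IsFreeGroup (group ⟨W3 (1 : Fin (n + 2)) a b e, W3_isStringLink n _ _ _⟩) := by
  cases a <;> cases b <;> cases e
  · exact group_free_e
  · exact group_free_b
  · exact group_free_d _ _ rfl
  · exact group_free_c _ _ rfl
  · exact group_free_d _ _ rfl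
  · exact group_free_c _ _ rfl
  · exact absurd ⟨rfl, rfl, rfl⟩ h
  · exact group_free_a

end groups

end Pool.Agent.StrLink
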