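import Pool.Agent.StrLink.Moves

set_option autoImplicit false

namespace Pool.Agent.StrLink

variable {k : ℕ} {R : Type} [CommRing R]

/-- Two words have the same effect. -/
def Same (A B : R) (l : List (Pt k)) (a b : Word k) : Prop :=
  run l a = run l b ∧ ∀ (s : List Bool), s.length = l.length → ∀ f, F A B l a f s = F A B l b f s

theorem same_of_window (A B : R) (a0 b0 : Word k) (n0 i : ℕ) (l : List (Pt k))
    (hn : i + n0 ≤ l.length) (hfa : fits n0 a0) (hfb : fits n0 b0)
    (h : ∀ lm : List (Pt k), lm.length = n0 → okW lm a0 → okW lm b0 → Same A B lm a0 b0)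
    (hoa : okW l (a0.map (Piece.shift i))) (hob : okW l (b0.map (Piece.shift i))) :
    Same A B l (a0.map (Piece.shift i)) (b0.map (Piece.shift i)) := by
  obtain ⟨la, lm, lb, rfl, h1, h2⟩ := exists_split l hn
  have ha := okW_window a0 la lm lb (by rw [h2]; exact hfa) i h1 hoa
  have hb := okW_window b0 la lm lb (by rw [h2]; exact hfb) i h1 hob
  obtain ⟨hr, hF⟩ := h lm h2 ha hb
  refine ⟨?_, ?_⟩
  · rw [run_window a0 la lm lb (by rw [h2]; exact hfa) i h1,
      run_window b0 la lm lb (by rw [h2]; exact hfb) i h1, hr]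
  · intro s hs f
    obtain ⟨a, m, b, rfl, g1, g2⟩ := exists_split (i := i) (n := n0) s (by rw [hs]; exact hn)
    rw [F_window A B a0 la lm lb a m b (by rw [g1, h1]) (by rw [g2, h2]) (by rw [h2]; exact hfa)
      f i g1, F_window A B b0 la lm lb a m b (by rw [g1, h1]) (by rw [g2, h2])
      (by rw [h2]; exact hfb) f i g1]
    exact hF m (by rw [g2, h2]) _

section localmoves

variable (A B : R)

/-- The length needed for two pieces. -/
theorem len_two {p q : Piece k} {l : List (Pt k)} {v : Word k} (ho : okW l (p :: q :: v)) :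
    p.pos + p.ins ≤ l.length ∧ q.pos + q.ins ≤ l.length - p.ins + p.outs := by
  have h1 := Piece.ok_le ho.2.1
  rw [Piece.lab_length (Piece.ok_le ho.1)] at h1
  exact ⟨Piece.ok_le ho.1, h1⟩

theorem same_zigzag (hAB : A * B = 1) (i : ℕ) (c : Fin k) (d : Bool) (l : List (Pt k))
    (ho : okW l [.cup i c d, .cap (i + 1)]) : Same A B l [.cup i c d, .cap (i + 1)] [] := by
  have hlen : i + 1 ≤ l.length := by
    have h1 := len_two ho
    simp only [Piece.pos, Piece.ins, Piece.outs] at h1
    omega
  refine same_of_window A B [.cup 0 c d, .cap 1] [] 1 i l hlen ?_ trivial ?_ ho trivial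
  · simp [fits, Piece.pos, Piece.ins, Piece.outs]
  · intro lm hlm ho _
    match lm, hlm with
    | [p], _ =>
      obtain ⟨-, ⟨c', d', h1, h2⟩, -⟩ := ho
      simp [Piece.lab, ins2] at h1 h2
      refine ⟨?_, ?_⟩
      · simp [run, Piece.lab, ins2, at2]
        rw [h2, h1.1, h1.2]
      · intro s hs f
        match s, hs with
        | [x], _ =>
          cases x
          · simp [F, op, ins2, at2, capAt, capw]
          · simp [F, op, ins2, at2, capAt, capw]
            linear_combination (f [true] * (A * B + 1)) * hAB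

theorem same_zigzag' (hAB : A * B = 1) (i : ℕ) (c : Fin k) (d : Bool) (l : List (Pt k))
    (ho : okW l [.cup (i + 1) c d, .cap i]) : Same A B l [.cup (i + 1) c d, .cap i] [] := by
  have hlen : i + 1 ≤ l.length := by
    have h1 := len_two ho
    simp only [Piece.pos, Piece.ins, Piece.outs] at h1
    omega
  refine same_of_window A B [.cup 1 c d, .cap 0] [] 1 i l hlen ?_ trivial ?_ ho trivial
  · simp [fits, Piece.pos, Piece.ins, Piece.outs]
  · intro lm hlm ho _
    match lm, hlm with
    | [p], _ =>
      obtain ⟨-, ⟨c', d', h1, h2⟩, -⟩ := ho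
      simp [Piece.lab, ins2] at h1 h2
      refine ⟨?_, ?_⟩
      · simp [run, Piece.lab, ins2, at2]
        rw [h1, h2.1, h2.2]
        simp
      · intro s hs f
        match s, hs with
        | [x], _ =>
          cases x
          · simp [F, op, ins2, at2, capAt, capw]
            linear_combination (f [false] * (A * B + 1)) * hAB
          · simp [F, op, ins2, at2, capAt, capw]

theorem same_slideCap (hAB : A * B = 1) (i : ℕ) (o : Bool) (l : List (Pt k))
    (ho : okW l [.cross i o, .cap (i + 1)]) (ho' : okW l [.cross (i + 1) !o, .cap i]) :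
    Same A B l [.cross i o, .cap (i + 1)] [.cross (i + 1) !o, .cap i] := by
  have hlen : i + 3 ≤ l.length := by
    have h1 := len_two ho
    simp only [Piece.pos, Piece.ins, Piece.outs] at h1
    omega
  refine same_of_window A B [.cross 0 o, .cap 1] [.cross 1 !o, .cap 0] 3 i l hlen ?_ ?_ ?_ ho ho'
  · simp [fits, Piece.pos, Piece.ins, Piece.outs]
  · simp [fits, Piece.pos, Piece.ins, Piece.outs]
  · intro lm hlm ho _
    match lm, hlm with
    | [p, q, r], _ =>
      obtain ⟨-, ⟨c', d', h1, h2⟩, -⟩ := ho
      simp [Piece.lab, at2] at h1 h2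
      subst h1 h2
      obtain ⟨qc, qd⟩ := q
      refine ⟨?_, ?_⟩
      · simp [run, Piece.lab, at2]
      · intro s hs f
        match s, hs with
        | [x, y, z], _ =>
          cases o <;> cases x <;> cases y <;> cases z <;> cases d' <;> cases qd <;>
          simp [F, op, at2, capAt, capw, nrm, dirAt] <;> grind

theorem same_slideCup (hAB : A * B = 1) (i : ℕ) (o : Bool) (c : Fin k) (d : Bool)
    (l : List (Pt k))
    (ho : okW l [.cup (i + 1) c d, .cross i o]) (ho' : okW l [.cup i c d, .cross (i + 1) !o]) :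
    Same A B l [.cup (i + 1) c d, .cross i o] [.cup i c d, .cross (i + 1) !o] := by
  have hlen : i + 1 ≤ l.length := by
    have h1 := len_two ho
    simp only [Piece.pos, Piece.ins, Piece.outs] at h1
    omega
  refine same_of_window A B [.cup 1 c d, .cross 0 o] [.cup 0 c d, .cross 1 !o] 1 i l hlen
    ?_ ?_ ?_ ho ho'
  · simp [fits, Piece.pos, Piece.ins, Piece.outs]
  · simp [fits, Piece.pos, Piece.ins, Piece.outs]
  · intro lm hlm ho _
    match lm, hlm with
    | [q], _ =>
      obtain ⟨qc, qd⟩ := q
      refine ⟨?_, ?_⟩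
      · simp [run, Piece.lab, at2, ins2]
      · intro s hs f
        match s, hs with
        | [x], _ =>
          cases o <;> cases x <;> cases d <;> cases qd <;>
          simp [F, op, at2, ins2, Piece.lab, capAt, capw, nrm, dirAt] <;> grind

theorem same_r1Cap (hAB : A * B = 1) (i : ℕ) (o : Bool) (l : List (Pt k))
    (ho : okW l [.cross i o, .cap i]) (ho' : okW l [.cap i]) :
    Same A B l [.cross i o, .cap i] [.cap i] := by
  have hlen : i + 2 ≤ l.length := by
    have h1 := len_two ho
    simp only [Piece.pos, Piece.ins, Piece.outs] at h1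
    omega
  refine same_of_window A B [.cross 0 o, .cap 0] [.cap 0] 2 i l hlen ?_ ?_ ?_ ho ho'
  · simp [fits, Piece.pos, Piece.ins, Piece.outs]
  · simp [fits, Piece.pos, Piece.ins]
  · intro lm hlm ho _
    match lm, hlm with
    | [p, q], _ =>
      obtain ⟨-, ⟨c', d', h1, h2⟩, -⟩ := ho
      simp [Piece.lab, at2] at h1 h2
      subst h1 h2
      refine ⟨?_, ?_⟩
      · simp [run, Piece.lab, at2]
      · intro s hs f
        match s, hs with
        | [x, y], _ =>
          cases o <;> cases x <;> cases y <;> cases d' <;>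
          simp [F, op, at2, capAt, capw, nrm, dirAt] <;> grind

theorem same_r1Cup (hAB : A * B = 1) (i : ℕ) (o : Bool) (c : Fin k) (d : Bool)
    (l : List (Pt k))
    (ho : okW l [.cup i c d, .cross i o]) (ho' : okW l [.cup i c !d]) :
    Same A B l [.cup i c d, .cross i o] [.cup i c !d] := by
  have hlen : i + 0 ≤ l.length := by
    have h1 := len_two ho
    simp only [Piece.pos, Piece.ins, Piece.outs] at h1
    omega
  refine same_of_window A B [.cup 0 c d, .cross 0 o] [.cup 0 c !d] 0 i l hlen
    ?_ ?_ ?_ ho ho'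
  · simp [fits, Piece.pos, Piece.ins, Piece.outs]
  · simp [fits, Piece.pos, Piece.ins]
  · intro lm hlm ho _
    match lm, hlm with
    | [], _ =>
      refine ⟨?_, ?_⟩
      · simp [run, Piece.lab, at2, ins2]
      · intro s hs f
        match s, hs with
        | [], _ =>
          cases o <;> cases d <;>
          simp [F, op, at2, ins2, Piece.lab, capAt, capw, nrm, dirAt] <;> grind

theorem same_r2 (hAB : A * B = 1) (i : ℕ) (o : Bool) (l : List (Pt k))
    (ho : okW l [.cross i o, .cross i !o]) :
    Same A B l [.cross i o, .cross i !o] [] := by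
  have hlen : i + 2 ≤ l.length := by
    have h1 := len_two ho
    simp only [Piece.pos, Piece.ins, Piece.outs] at h1
    omega
  refine same_of_window A B [.cross 0 o, .cross 0 !o] [] 2 i l hlen ?_ trivial ?_ ho trivial
  · simp [fits, Piece.pos, Piece.ins, Piece.outs]
  · intro lm hlm ho _
    match lm, hlm with
    | [p, q], _ =>
      obtain ⟨pc, pd⟩ := p
      obtain ⟨qc, qd⟩ := q
      refine ⟨?_, ?_⟩
      · simp [run, Piece.lab, at2]
      · intro s hs f
        match s, hs with
        | [x, y], _ =>
          cases o <;> cases x <;> cases y <;> cases pd <;> cases qd <;>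
          simp [F, op, at2, Piece.lab, capAt, capw, nrm, dirAt] <;> grind

theorem same_r3 (hAB : A * B = 1) (i : ℕ) (a b c : Bool) (h : ¬ (a = c ∧ b ≠ a))
    (l : List (Pt k))
    (ho : okW l [.cross i a, .cross (i + 1) b, .cross i c])
    (ho' : okW l [.cross (i + 1) c, .cross i b, .cross (i + 1) a]) :
    Same A B l [.cross i a, .cross (i + 1) b, .cross i c]
      [.cross (i + 1) c, .cross i b, .cross (i + 1) a] := by
  have hlen : i + 3 ≤ l.length := by
    have h1 := len_two ho'
    simp only [Piece.pos, Piece.ins, Piece.outs] at h1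
    omega
  refine same_of_window A B [.cross 0 a, .cross 1 b, .cross 0 c]
    [.cross 1 c, .cross 0 b, .cross 1 a] 3 i l hlen ?_ ?_ ?_ ho ho'
  · simp [fits, Piece.pos, Piece.ins, Piece.outs]
  · simp [fits, Piece.pos, Piece.ins, Piece.outs]
  · intro lm hlm ho _
    match lm, hlm with
    | [p, q, r], _ =>
      obtain ⟨pc, pd⟩ := p
      obtain ⟨qc, qd⟩ := q
      obtain ⟨rc, rd⟩ := r
      refine ⟨?_, ?_⟩
      · simp [run, Piece.lab, at2]
      · intro s hs f
        match s, hs with
        | [x, y, z], _ =>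
          simp only [F, op, Piece.lab]
          simp only [at2, dirAt, List.drop_zero, List.take_zero, List.nil_append,
            List.cons_append, List.map_cons, List.map_nil, List.getD_cons_zero,
            List.drop_succ_cons, List.take_succ_cons, Nat.zero_add, List.getD_cons_succ]
          generalize nrm A B a pd qd = n1
          generalize nrm A B b pd rd = n2
          generalize nrm A B c qd rd = n3
          have h' : (a = true ∧ b = true ∧ c = true) ∨ (a = true ∧ b = true ∧ c = false) ∨
            (a = true ∧ b = false ∧ c = false) ∨ (a = false ∧ b = true ∧ c = true) ∨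
            (a = false ∧ b = false ∧ c = true) ∨ (a = false ∧ b = false ∧ c = false) := by
            revert h
            cases a <;> cases b <;> cases c <;> simp
          rcases h' with ⟨rfl, rfl, rfl⟩ | ⟨rfl, rfl, rfl⟩ | ⟨rfl, rfl, rfl⟩ | ⟨rfl, rfl, rfl⟩ |
            ⟨rfl, rfl, rfl⟩ | ⟨rfl, rfl, rfl⟩ <;>
          cases x <;> cases y <;> cases z <;>
          simp [capAt, capw] <;> grind

theorem put_shift (p : Piece k) (n : ℕ) : (p.put 0).shift n = p.put n := by
  cases p <;> rfl

theorem put_pos (p : Piece k) : p.put p.pos = p := by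
  cases p <;> rfl

theorem put_zero_fits (p : Piece k) {n : ℕ} (h : p.ins = n) :
    (p.put 0).pos + (p.put 0).ins ≤ n := by
  subst h
  cases p <;> simp [Piece.put, Piece.pos, Piece.ins]

theorem put_ins (p : Piece k) (n : ℕ) : (p.put n).ins = p.ins := by
  cases p <;> rfl

theorem put_outs (p : Piece k) (n : ℕ) : (p.put n).outs = p.outs := by
  cases p <;> rfl

theorem put_pos' (p : Piece k) (n : ℕ) : (p.put n).pos = n := by
  cases p <;> rfl

theorem same_far (p q : Piece k) (m : ℕ) (l : List (Pt k))
    (ho : okW l [p, q.put (p.pos + p.outs + m)]) :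
    Same A B l [p, q.put (p.pos + p.outs + m)] [q.put (p.pos + p.ins + m), p] := by
  have hlen : p.pos + (p.ins + (m + q.ins)) ≤ l.length := by
    have h1 := len_two ho
    rw [put_ins, put_pos'] at h1
    omega
  obtain ⟨la, l1, lc, rfl, hla, hl1⟩ := exists_split l hlen
  obtain ⟨lm1, l2, lx, rfl, hlm1, hl2⟩ := exists_split (i := p.ins) (n := m) l1 (by omega)
  have hlx : lx.length = q.ins := by
    simp only [List.length_append] at hl1
    omega
  set P := p.put 0 with hP
  set Q := q.put 0 with hQ
  have hp : p = P.shift la.length := by rw [hP, put_shift, hla, put_pos]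
  have hPf : P.pos + P.ins ≤ lm1.length := put_zero_fits p hlm1.symm
  have hQf : Q.pos + Q.ins ≤ lx.length := put_zero_fits q hlx.symm
  have hPlen : (P.lab lm1).length = p.outs := by
    rw [Piece.lab_length hPf, hP, put_ins, put_outs, hlm1]
    omega
  have hQlen : (Q.lab lx).length = q.outs := by
    rw [Piece.lab_length hQf, hQ, put_ins, put_outs, hlx]
    omega
  have hq1 : q.put (p.pos + p.outs + m) = Q.shift (la ++ P.lab lm1 ++ l2).length := by
    rw [hQ, put_shift]
    congr 1
    simp only [List.length_append, hPlen]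
    omega
  have hq2 : q.put (p.pos + p.ins + m) = Q.shift (la ++ lm1 ++ l2).length := by
    rw [hQ, put_shift]
    congr 1
    simp only [List.length_append]
    omega
  -- labels
  have e0 : la ++ (lm1 ++ l2 ++ lx) ++ lc = la ++ lm1 ++ (l2 ++ lx ++ lc) := by simp
  have e0' : la ++ (lm1 ++ l2 ++ lx) ++ lc = (la ++ lm1 ++ l2) ++ lx ++ lc := by simp
  have L1 : p.lab (la ++ (lm1 ++ l2 ++ lx) ++ lc) = la ++ P.lab lm1 ++ (l2 ++ lx ++ lc) := by
    rw [e0]
    conv_lhs => rw [hp]
    exact lab_window P la lm1 _ _ rfl hPf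
  have L2 : (q.put (p.pos + p.ins + m)).lab (la ++ (lm1 ++ l2 ++ lx) ++ lc) =
      (la ++ lm1 ++ l2) ++ Q.lab lx ++ lc := by
    rw [e0', hq2]
    exact lab_window Q _ lx _ _ rfl hQf
  have L3 : (q.put (p.pos + p.outs + m)).lab (la ++ P.lab lm1 ++ (l2 ++ lx ++ lc)) =
      (la ++ P.lab lm1 ++ l2) ++ Q.lab lx ++ lc := by
    rw [show la ++ P.lab lm1 ++ (l2 ++ lx ++ lc) = (la ++ P.lab lm1 ++ l2) ++ lx ++ lc by simp, hq1]
    exact lab_window Q _ lx _ _ rfl hQf
  have L4 : p.lab ((la ++ lm1 ++ l2) ++ Q.lab lx ++ lc) =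
      la ++ P.lab lm1 ++ (l2 ++ Q.lab lx ++ lc) := by
    rw [show (la ++ lm1 ++ l2) ++ Q.lab lx ++ lc = la ++ lm1 ++ (l2 ++ Q.lab lx ++ lc) by simp]
    conv_lhs => rw [hp]
    exact lab_window P la lm1 _ _ rfl hPf
  refine ⟨?_, ?_⟩
  · simp only [run]
    rw [L1, L2, L3, L4]
    simp
  · intro s hs f
    obtain ⟨a, s1, c, rfl, ha, hs1⟩ := exists_split (i := p.pos) (n := p.ins + (m + q.ins)) s
      (by rw [hs]; exact hlen)
    obtain ⟨m1, m2, mx, rfl, hm1, hm2⟩ := exists_split (i := p.ins) (n := m) s1 (by omega)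
    have hmx : mx.length = q.ins := by
      simp only [List.length_append] at hs1
      omega
    simp only [F]
    rw [L1, L2]
    -- left side
    have A1 : op A B (la ++ (lm1 ++ l2 ++ lx) ++ lc) p
        (op A B (la ++ P.lab lm1 ++ (l2 ++ lx ++ lc)) (q.put (p.pos + p.outs + m)) f)
        (a ++ (m1 ++ m2 ++ mx) ++ c) =
        op A B lm1 P (fun u => op A B lx Q (fun v => f (a ++ u ++ m2 ++ v ++ c)) mx) m1 := by
      rw [e0, show a ++ (m1 ++ m2 ++ mx) ++ c = a ++ m1 ++ (m2 ++ mx ++ c) by simp]
      conv_lhs => enter [4]; rw [hp]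
      rw [show la.length = a.length by omega, op_window A B P la lm1 _ a m1 _ (by omega)
        (by omega) (by rw [hm1, ← hlm1]; exact hPf)]
      apply op_congr A B lm1 P m1 (by rw [hm1, ← hlm1]; exact hPf)
      intro u hu
      have hu' : u.length = p.outs := by
        rw [hu, hP, put_ins, put_outs, hm1]
        omega
      rw [show la ++ P.lab lm1 ++ (l2 ++ lx ++ lc) = (la ++ P.lab lm1 ++ l2) ++ lx ++ lc by simp,
        show a ++ u ++ (m2 ++ mx ++ c) = (a ++ u ++ m2) ++ mx ++ c by simp, hq1,
        show (la ++ P.lab lm1 ++ l2).length = (a ++ u ++ m2).length by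
          simp only [List.length_append]; omega]
      exact op_window A B Q _ lx _ _ mx _ (by simp only [List.length_append]; omega) (by omega)
        (by rw [hmx, ← hlx]; exact hQf) f
    have A2 : op A B (la ++ (lm1 ++ l2 ++ lx) ++ lc) (q.put (p.pos + p.ins + m))
        (op A B ((la ++ lm1 ++ l2) ++ Q.lab lx ++ lc) p f) (a ++ (m1 ++ m2 ++ mx) ++ c) =
        op A B lx Q (fun v => op A B lm1 P (fun u => f (a ++ u ++ m2 ++ v ++ c)) m1) mx := by
      rw [e0', show a ++ (m1 ++ m2 ++ mx) ++ c = (a ++ m1 ++ m2) ++ mx ++ c by simp, hq2,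
        show (la ++ lm1 ++ l2).length = (a ++ m1 ++ m2).length by
          simp only [List.length_append]; omega,
        op_window A B Q _ lx _ _ mx _ (by simp only [List.length_append]; omega) (by omega)
          (by rw [hmx, ← hlx]; exact hQf)]
      apply op_congr A B lx Q mx (by rw [hmx, ← hlx]; exact hQf)
      intro v hv
      rw [show (la ++ lm1 ++ l2) ++ Q.lab lx ++ lc = la ++ lm1 ++ (l2 ++ Q.lab lx ++ lc) by simp,
        show (a ++ m1 ++ m2) ++ v ++ c = a ++ m1 ++ (m2 ++ v ++ c) by simp]
      conv_lhs => enter [4]; rw [hp]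
      rw [show la.length = a.length by omega, op_window A B P la lm1 _ a m1 _ (by omega)
        (by omega) (by rw [hm1, ← hlm1]; exact hPf)]
      simp
    rw [A1, A2]
    obtain ⟨c0, c1, c2, u0, u1, u2, -, -, -, hg⟩ := op_form A B lm1 P m1
      (by rw [hm1, ← hlm1]; exact hPf)
    obtain ⟨d0, d1, d2, v0, v1, v2, -, -, -, hh⟩ := op_form A B lx Q mx
      (by rw [hmx, ← hlx]; exact hQf)
    simp only [hg, hh]
    ring

/-- The bracket is unchanged by all moves. -/
theorem same_rel (hAB : A * B = 1) {a b : Word k} (h : Rel a b) (l : List (Pt k))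
    (ho : okW l a) (ho' : okW l b) : Same A B l a b := by
  cases h with
  | far p q m => exact same_far A B p q m l ho
  | zigzag i c d => exact same_zigzag A B hAB i c d l ho
  | zigzag' i c d => exact same_zigzag' A B hAB i c d l ho
  | slideCap i o => exact same_slideCap A B hAB i o l ho ho'
  | slideCup i o c d => exact same_slideCup A B hAB i o c d l ho ho'
  | r1Cap i o => exact same_r1Cap A B hAB i o l ho ho'
  | r1Cup i o c d => exact same_r1Cup A B hAB i o c d l ho ho'
  | r2 i o => exact same_r2 A B hAB i o l ho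
  | r3 i a b c h => exact same_r3 A B hAB i a b c h l ho ho'

theorem F_move (hAB : A * B = 1) {w w' : Word k} (h : Move w w') (l : List (Pt k))
    (ho : okW l w) (ho' : okW l w') (f : List Bool → R) (s : List Bool) (hs : s.length = l.length) :
    F A B l w f s = F A B l w' f s := by
  obtain ⟨u, v, a, b, hab, rfl, rfl⟩ := h
  rw [okW_append, okW_append] at ho ho'
  rw [run_append] at ho ho'
  obtain ⟨⟨hu, ha⟩, hv⟩ := ho
  obtain ⟨⟨-, hb⟩, -⟩ := ho'
  obtain ⟨hr, hF⟩ := same_rel A B hAB hab (run l u) ha hb
  rw [F_append, F_append, F_append, F_append, run_append, run_append, hr]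
  apply F_congr A B u l s hs hu
  intro t ht
  exact hF t ht _

end localmoves

end Pool.Agent.StrLink
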