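import Pool.Agent.StrLink.Fin

set_option autoImplicit false

namespace Pool.Agent.StrLink

section compute

variable {k : ℕ} {R : Type} [CommRing R]

/-- The diagrams used in the argument: a partial closure of a 3-braid, with two self-crossings of
the second strand and one crossing of the two strands as parameters. -/
def W3 (c : Fin k) (a b e : Bool) : Word k :=
  [.cup 2 c true, .cross 1 a, .cross 1 b, .cross 0 true, .cross 0 e, .cross 1 true, .cap 2]

theorem F_trefoil {A B : R} (hAB : A * B = 1) (c0 c : Fin k) (g : List Bool → R) :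
    F A B [(c0, true), (c, true)] (W3 c true true false) g [false, false] =
      (B ^ 4 + B ^ 12 - B ^ 16) * g [false, false] := by
  simp [W3, F, op, at2, ins2, capAt, capw, Piece.lab, nrm, dirAt]
  grind

theorem map_shift_zero (w : Word k) : w.map (Piece.shift 0) = w := by
  have : (Piece.shift 0 : Piece k → Piece k) = id := by
    funext p
    cases p <;> simp [Piece.shift, Piece.put, Piece.pos]
  rw [this, List.map_id]

theorem W3_fits (c : Fin k) (a b e : Bool) : fits 2 (W3 c a b e) := by
  simp [W3, fits, Piece.pos, Piece.ins, Piece.outs]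

theorem ends_eq (n : ℕ) : ends (n + 2) =
    [] ++ [((0 : Fin (n + 2)), true), ((1 : Fin (n + 2)), true)] ++
      List.ofFn fun j : Fin n => (j.succ.succ, true) := by
  simp only [ends, List.ofFn_succ]
  rfl

theorem W3_isStringLink (n : ℕ) (a b e : Bool) :
    IsStringLink (W3 (1 : Fin (n + 2)) a b e) := by
  refine ⟨?_, ?_, ?_⟩
  · rw [ends_eq]
    simp [W3, okW, Piece.ok, Piece.lab, at2, ins2]
  · rw [ends_eq]
    simp [W3, run, Piece.lab, at2, ins2]
  · rw [List.range_succ_eq_map, List.range_succ_eq_map]
    simp [W3, noClosed, at2, ins2]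

theorem nil_isStringLink (n : ℕ) : IsStringLink ([] : Word n) :=
  ⟨trivial, rfl, trivial⟩

end compute

section invariant

open PowerSeries

/-- The parameter `B = 1 + X`. -/
noncomputable def pB : PowerSeries ℚ := 1 + X

/-- The parameter `A = B⁻¹`. -/
noncomputable def pA : PowerSeries ℚ := pB⁻¹

theorem pAB : pA * pB = 1 := by
  rw [pA]
  apply PowerSeries.inv_mul_cancel
  simp [pB]

theorem X_dvd : (X : PowerSeries ℚ) ∣ pA - pB := by
  refine ⟨-pA - 1, ?_⟩
  have h := pAB
  rw [pB] at h ⊢
  linear_combination h

/-- The bottom and top state. -/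
def st (k : ℕ) : List Bool := List.replicate k false

/-- The invariant. -/
noncomputable def vK (k : ℕ) (w : SL k) : ℚ :=
  coeff 2 (F pA pB (ends k) w.1 (fun s => if s = st k then 1 else 0) (st k))

theorem vK_mem (k : ℕ) : vK k ∈ V k 2 := by
  refine ⟨?_, ?_⟩
  · intro w w' h
    rw [vK, vK, F_move pA pB pAB h (ends k) w.2.1 w'.2.1 _ _ (by simp [st, ends])]
  · intro w T hT hc
    have h := alt_dvd X_dvd w.1 (ends k) T hc (fun s => if s = st k then 1 else 0) (st k)
    rw [hT, PowerSeries.X_pow_dvd_iff] at h
    have h2 := h 2 (by norm_num)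
    rw [map_sum] at h2
    rw [← h2]
    apply Finset.sum_congr rfl
    intro S _
    rw [vK]
    rcases Nat.even_or_odd S.card with he | ho
    · simp [he.neg_one_pow]
    · simp [ho.neg_one_pow]

theorem vK_nil (n : ℕ) : vK n ⟨[], nil_isStringLink n⟩ = 0 := by
  simp [vK, F, PowerSeries.coeff_one]

theorem coeff_two (m : ℕ) : coeff 2 (pB ^ m) = (m.choose 2 : ℚ) := by
  have h : pB = ((1 + Polynomial.X : Polynomial ℚ) : PowerSeries ℚ) := by
    rw [Polynomial.coe_add, Polynomial.coe_one, Polynomial.coe_X, pB]
  rw [h, ← Polynomial.coe_pow, Polynomial.coeff_coe, Polynomial.coeff_one_add_X_pow]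

theorem vK_trefoil (n : ℕ) :
    vK (n + 2) ⟨W3 1 true true false, W3_isStringLink n _ _ _⟩ = -48 := by
  have h := F_window pA pB (W3 (1 : Fin (n + 2)) true true false) []
    [((0 : Fin (n + 2)), true), ((1 : Fin (n + 2)), true)]
    (List.ofFn fun j : Fin n => (j.succ.succ, true)) [] [false, false] (List.replicate n false)
    rfl rfl (W3_fits _ _ _ _) (fun s => if s = st (n + 2) then 1 else 0) 0 rfl
  rw [map_shift_zero, ← ends_eq] at h
  rw [vK]
  have hst : st (n + 2) = [] ++ [false, false] ++ List.replicate n false := by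
    simp [st, List.replicate_succ]
  simp only
  rw [← hst] at h
  rw [h, F_trefoil pAB]
  simp only [← hst, if_true, mul_one, map_sub, map_add, coeff_two]
  norm_num [Nat.choose]

end invariant

end Pool.Agent.StrLink
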