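import Pool.Agent.StrLink.Grp

set_option autoImplicit false

namespace Pool.Agent.StrLink

variable {n : ℕ}

/-- The string link with a local trefoil in the second strand. -/
def Ktref (n : ℕ) : SL (n + 2) := ⟨W3 1 true true false, W3_isStringLink n _ _ _⟩

/-- The trivial string link. -/
def Ktriv (n : ℕ) : SL (n + 2) := ⟨[], nil_isStringLink (n + 2)⟩

theorem switch_W3 (S : Finset ℕ) : switch S (W3 (1 : Fin (n + 2)) true true true) =
    W3 1 (decide (1 ∉ S)) (decide (2 ∉ S)) (decide (4 ∉ S)) ∨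
    ¬ (S ⊆ {1, 2, 4}) := by
  by_cases hS : S ⊆ {1, 2, 4}
  · left
    have h0 : 0 ∉ S := fun h => by simpa using hS h
    have h3 : 3 ∉ S := fun h => by simpa using hS h
    have h5 : 5 ∉ S := fun h => by simpa using hS h
    have h6 : 6 ∉ S := fun h => by simpa using hS h
    by_cases h1 : 1 ∈ S <;> by_cases h2 : 2 ∈ S <;> by_cases h4 : 4 ∈ S <;>
    simp [switch, W3, List.mapIdx_cons, h0, h1, h2, h3, h4, h5, h6, Piece.flip]
  · exact Or.inr hS

/-- Invariants of order at most `2` vanishing on string links with free group vanish on the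
local trefoil. -/
theorem N_trefoil {f : SL (n + 2) → ℚ} (hf : f ∈ N (n + 2) 2) : f (Ktref n) = 0 := by
  obtain ⟨⟨-, hfin⟩, hfree⟩ := hf
  have h := hfin ⟨W3 1 true true true, W3_isStringLink n _ _ _⟩ {1, 2, 4} rfl (by
    intro t ht
    simp only [Finset.mem_insert, Finset.mem_singleton] at ht
    rcases ht with rfl | rfl | rfl
    · exact ⟨_, rfl, trivial⟩
    · exact ⟨_, rfl, trivial⟩
    · exact ⟨_, rfl, trivial⟩)
  rw [Finset.sum_eq_single ({4} : Finset ℕ)] at h
  · have h1 : f ⟨switch {4} (W3 1 true true true),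
        (W3_isStringLink n true true true).switch {4}⟩ = f (Ktref n) := by
      congr 1
    simp only [Finset.card_singleton, pow_one, neg_mul, one_mul, neg_eq_zero] at h
    rw [← h1]
    exact h
  · intro S hS hne
    rw [Finset.mem_powerset] at hS
    have h1 := (switch_W3 (n := n) S).resolve_right (not_not.2 hS)
    have h2 : f ⟨switch S (W3 1 true true true), (W3_isStringLink n true true true).switch S⟩ =
        f ⟨W3 1 (decide (1 ∉ S)) (decide (2 ∉ S)) (decide (4 ∉ S)), W3_isStringLink n _ _ _⟩ :=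
      congrArg f (Subtype.ext h1)
    have h3 : f ⟨W3 1 (decide (1 ∉ S)) (decide (2 ∉ S)) (decide (4 ∉ S)),
        W3_isStringLink n _ _ _⟩ = 0 := by
      apply hfree
      apply group_free
      rintro ⟨g1, g2, g3⟩
      apply hne
      simp only [decide_eq_true_eq, decide_eq_false_iff_not, not_not] at g1 g2 g3
      ext x
      constructor
      · intro hx
        have := hS hx
        simp only [Finset.mem_insert, Finset.mem_singleton] at this ⊢
        rcases this with rfl | rfl | rfl
        · exact absurd hx g1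
        · exact absurd hx g2
        · rfl
      · intro hx
        rw [Finset.mem_singleton] at hx
        rw [hx]
        exact g3
    show (-1 : ℚ) ^ S.card * f ⟨switch S (W3 1 true true true),
      (W3_isStringLink n true true true).switch S⟩ = 0
    rw [h2, h3, mul_zero]
  · intro h4
    exact absurd (by simp) h4

theorem N_trivial {f : SL (n + 2) → ℚ} (hf : f ∈ N (n + 2) 2) : f (Ktriv n) = 0 :=
  hf.2 _ (group_nil_free _)

theorem magnus_mem {k r : ℕ} (I : Fin r → Fin k) (i : Fin k) : magnus I i ∈ unitri r := by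
  intro a b hba
  show magnusMatrix I i a b = _
  rw [magnusMatrix]
  by_cases h : a = b
  · rw [if_pos h, if_pos h]
  · rw [if_neg h, if_neg h, if_neg]
    rintro ⟨s, -, rfl, rfl⟩
    exact absurd hba (not_le.2 (Fin.castSucc_lt_succ (i := s)))

theorem longitudes_trefoil {Γ : Type} [Group Γ] (x : Fin (n + 2) → Γ) (U : Set Γ)
    (hU : x 1 ∈ U) : Longitudes x U (Ktref n).1 ((ends (n + 2)).map fun p => (p, 1))
      ((((0 : Fin (n + 2)), true), 1) :: (((1 : Fin (n + 2)), true), x 1 ^ 3) ::
        List.ofFn fun j : Fin n => ((j.succ.succ, true), 1)) := by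
  have h : (ends (n + 2)).map (fun p => (p, (1 : Γ))) =
      (((0 : Fin (n + 2)), true), 1) :: (((1 : Fin (n + 2)), true), 1) ::
        List.ofFn fun j : Fin n => ((j.succ.succ, true), 1) := by
    rw [ends_eq]
    simp [List.map_ofFn, Function.comp_def]
  have e : x 1 ^ 3 = x 1 * x 1 * x 1 := by rw [pow_succ, pow_two]
  rw [h, e]
  refine ⟨x 1, hU, ?_⟩
  simp [Longitudes, at2, ins2, meridian]

theorem writhe_trefoil (j : Fin (n + 2)) :
    writhe j (ends (n + 2)) (Ktref n).1 = if j = 1 then 3 else 0 := by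
  rw [ends_eq]
  simp only [Ktref, W3, writhe, Piece.lab]
  simp [at2, ins2, crossSign]
  by_cases h : j = 1
  · subst h
    simp
  · have h' : (1 : Fin (n + 2)) ≠ j := fun e => h e.symm
    simp [h, h']

/-- Milnor invariants do not see the local trefoil. -/
theorem milnor_trefoil {r : ℕ} {I : Fin r → Fin (n + 2)} {j : Fin (n + 2)}
    {f : SL (n + 2) → ℚ} (hf : IsMilnor I j f) : f (Ktref n) = f (Ktriv n) := by
  rw [hf (Ktref n) _ (longitudes_trefoil (magnus I) (unitri r) (magnus_mem I 1)),
    hf (Ktriv n) ((ends (n + 2)).map fun p => (p, 1)) rfl]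
  rw [writhe_trefoil]
  have hl : ((ends (n + 2)).map (fun p => (p, (1 : Matrix.SpecialLinearGroup (Fin (r + 1)) ℤ)))).map
      Prod.snd = List.replicate (n + 2) 1 := by
    rw [ends, List.map_map, List.map_ofFn]
    simp [Function.comp_def, List.replicate_succ]
  have hg : (List.replicate (n + 2) (1 : Matrix.SpecialLinearGroup (Fin (r + 1)) ℤ)).getD
      (j : ℕ) 1 = 1 := by
    simp [List.getD_eq_getElem?_getD, j.2]
  have hw : writhe j (ends (n + 2)) (Ktriv n).1 = 0 := rfl
  rw [hl, hg, hw]
  have key : (magnus I j) ^ (-(if j = 1 then (3 : ℤ) else 0)) *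
      (((((0 : Fin (n + 2)), true), (1 : Matrix.SpecialLinearGroup (Fin (r + 1)) ℤ)) ::
        (((1 : Fin (n + 2)), true), magnus I 1 ^ 3) ::
        List.ofFn fun j : Fin n => ((j.succ.succ, true), 1)).map Prod.snd).getD (j : ℕ) 1 = 1 := by
    refine Fin.cases ?_ (fun j => ?_) j
    · simp
    · refine Fin.cases ?_ (fun j => ?_) j
      · simp
      · have h1 : j.succ.succ ≠ (1 : Fin (n + 2)) := fun h =>
          Fin.succ_ne_zero j (Fin.succ_injective _ h)
        simp [h1]
  rw [key]
  simp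

/-- Polynomials in Milnor invariants do not see the local trefoil. -/
theorem adjoin_trefoil {f : SL (n + 2) → ℚ}
    (hf : f ∈ Algebra.adjoin ℚ {f : SL (n + 2) → ℚ |
      ∃ (r : ℕ) (I : Fin r → Fin (n + 2)) (j : Fin (n + 2)), IsMilnor I j f}) :
    f (Ktref n) = f (Ktriv n) := by
  induction hf using Algebra.adjoin_induction with
  | mem f hf =>
    obtain ⟨r, I, j, h⟩ := hf
    exact milnor_trefoil h
  | algebraMap c => rfl
  | add f g _ _ hf hg => rw [Pi.add_apply, Pi.add_apply, hf, hg]
  | mul f g _ _ hf hg => rw [Pi.mul_apply, Pi.mul_apply, hf, hg]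

/-- For every `k ≥ 2` the space `V_2` is larger than `M_2 + N_2`. -/
theorem main (k : ℕ) (hk : 2 ≤ k) : M k 2 ⊔ N k 2 ≠ V k 2 := by
  obtain ⟨n, rfl⟩ := Nat.exists_eq_add_of_le' hk
  intro h
  have hv : vK (n + 2) ∈ M (n + 2) 2 ⊔ N (n + 2) 2 := by
    rw [h]
    exact vK_mem _
  obtain ⟨f, hf, g, hg, hfg⟩ := Submodule.mem_sup.1 hv
  have h1 : vK (n + 2) (Ktref n) = f (Ktref n) + g (Ktref n) := by rw [← hfg]; rfl
  have h2 : vK (n + 2) (Ktriv n) = f (Ktriv n) + g (Ktriv n) := by rw [← hfg]; rfl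
  rw [N_trefoil hg, add_zero] at h1
  rw [N_trivial hg, add_zero] at h2
  have h3 := adjoin_trefoil ((Subalgebra.mem_toSubmodule _).1 hf.2)
  rw [← h1, ← h2] at h3
  have h4 : vK (n + 2) (Ktref n) = -48 := vK_trefoil n
  have h5 : vK (n + 2) (Ktriv n) = 0 := vK_nil (n + 2)
  rw [h4, h5] at h3
  norm_num at h3

end Pool.Agent.StrLink
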