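import Pool.Agent.StrLink.Bracket

set_option autoImplicit false

namespace Pool.Agent.StrLink

variable {k : ℕ} {R : Type} [CommRing R]

theorem at2_length {α : Type} {i n : ℕ} (f : α → α → List α) (l : List α) (h : i + 2 ≤ l.length)
    (hf : ∀ x y, (f x y).length = n) : (at2 i f l).length = l.length - 2 + n := by
  obtain ⟨a, m, b, rfl, h1, h2⟩ := exists_split l h
  match m, h2 with
  | [x, y], _ =>
    rw [show a ++ [x, y] ++ b = a ++ x :: y :: b by simp, at2_append f a b x y h1]
    simp [hf]
    omega

theorem ins2_length {α : Type} {i : ℕ} (x y : α) (l : List α) (h : i ≤ l.length) :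
    (ins2 i x y l).length = l.length + 2 := by
  simp only [ins2, List.length_append, List.length_take, List.length_cons, List.length_nil,
    List.length_drop]
  omega

theorem Piece.ok_le {p : Piece k} {l : List (Pt k)} (h : p.ok l) : p.pos + p.ins ≤ l.length := by
  cases p with
  | cross i o =>
    simp only [Piece.ok] at h
    simp only [Piece.pos, Piece.ins]
    omega
  | cap i =>
    obtain ⟨c, d, h1, h2⟩ := h
    have := (List.getElem?_eq_some_iff.1 h2).1
    simp only [Piece.pos, Piece.ins]
    omega
  | cup i c d =>
    simp only [Piece.ok] at h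
    simp only [Piece.pos, Piece.ins]
    omega

theorem Piece.lab_length {p : Piece k} {l : List (Pt k)} (h : p.pos + p.ins ≤ l.length) :
    (p.lab l).length = l.length - p.ins + p.outs := by
  cases p with
  | cross i o => exact at2_length _ l h fun _ _ => rfl
  | cap i => exact at2_length _ l h fun _ _ => rfl
  | cup i c d =>
    simp only [Piece.pos, Piece.ins] at h
    exact ins2_length _ _ l (by omega)

theorem lab_window (p : Piece k) (la lm lb : List (Pt k)) (n : ℕ) (hn : la.length = n)
    (hp : p.pos + p.ins ≤ lm.length) :
    (p.shift n).lab (la ++ lm ++ lb) = la ++ p.lab lm ++ lb := by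
  subst hn
  cases p with
  | cross i o => exact at2_window _ la lm lb hp
  | cap i => exact at2_window _ la lm lb hp
  | cup i c d =>
    have hp' : i ≤ lm.length := hp
    exact ins2_window _ _ la lm lb hp'

/-- Every bracket operator is a combination of three evaluations. -/
theorem op_form (A B : R) (lm : List (Pt k)) (p : Piece k) (m : List Bool)
    (hp : p.pos + p.ins ≤ m.length) :
    ∃ (c0 c1 c2 : R) (u0 u1 u2 : List Bool), u0.length = m.length - p.ins + p.outs ∧
      u1.length = m.length - p.ins + p.outs ∧ u2.length = m.length - p.ins + p.outs ∧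
      ∀ g, op A B lm p g m = c0 * g u0 + c1 * g u1 + c2 * g u2 := by
  cases p with
  | cross i o =>
    have hp' : i + 2 ≤ m.length := hp
    refine ⟨nrm A B o (dirAt lm i) (dirAt lm (i + 1)) * (if o then A else B),
      nrm A B o (dirAt lm i) (dirAt lm (i + 1)) * ((if o then B else A) * capAt A i m),
      - (nrm A B o (dirAt lm i) (dirAt lm (i + 1)) * ((if o then B else A) * capAt A i m) * B ^ 2),
      m, at2 i (fun _ _ => [false, true]) m, at2 i (fun _ _ => [true, false]) m,
      ?_, ?_, ?_, fun g => ?_⟩
    · show m.length = m.length - 2 + 2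
      omega
    · exact at2_length _ m hp fun _ _ => rfl
    · exact at2_length _ m hp fun _ _ => rfl
    · simp only [op]
      ring
  | cap i =>
    refine ⟨capAt A i m, 0, 0, at2 i (fun _ _ => []) m, at2 i (fun _ _ => []) m,
      at2 i (fun _ _ => []) m, ?_, ?_, ?_, fun g => ?_⟩
    · exact at2_length _ m hp fun _ _ => rfl
    · exact at2_length _ m hp fun _ _ => rfl
    · exact at2_length _ m hp fun _ _ => rfl
    · simp only [op]
      ring
  | cup i c d =>
    have hp' : i ≤ m.length := hp
    refine ⟨1, -B ^ 2, 0, ins2 i false true m, ins2 i true false m, ins2 i true false m,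
      ?_, ?_, ?_, fun g => ?_⟩
    · exact ins2_length _ _ m hp'
    · exact ins2_length _ _ m hp'
    · exact ins2_length _ _ m hp'
    · simp only [op]
      ring

theorem op_congr (A B : R) (lm : List (Pt k)) (p : Piece k) (m : List Bool)
    (hp : p.pos + p.ins ≤ m.length) {g g' : List Bool → R}
    (h : ∀ u : List Bool, u.length = m.length - p.ins + p.outs → g u = g' u) :
    op A B lm p g m = op A B lm p g' m := by
  obtain ⟨c0, c1, c2, u0, u1, u2, h0, h1, h2, hg⟩ := op_form A B lm p m hp
  rw [hg, hg, h u0 h0, h u1 h1, h u2 h2]

/-- The word can be applied to a line with `n` points. -/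
def fits : ℕ → Word k → Prop
  | _, [] => True
  | n, p :: w => p.pos + p.ins ≤ n ∧ fits (n - p.ins + p.outs) w

theorem fits_of_okW {l : List (Pt k)} {w : Word k} (h : okW l w) : fits l.length w := by
  induction w generalizing l with
  | nil => trivial
  | cons p w ih =>
    refine ⟨Piece.ok_le h.1, ?_⟩
    rw [← Piece.lab_length (Piece.ok_le h.1)]
    exact ih h.2

theorem F_congr (A B : R) (w : Word k) (l : List (Pt k)) (s : List Bool) (hs : s.length = l.length)
    (hw : okW l w) {g g' : List Bool → R}
    (h : ∀ u : List Bool, u.length = (run l w).length → g u = g' u) :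
    F A B l w g s = F A B l w g' s := by
  induction w generalizing l s with
  | nil => exact h s hs
  | cons p w ih =>
    have hp := Piece.ok_le hw.1
    apply op_congr A B l p s (by rw [hs]; exact hp)
    intro u hu
    apply ih (p.lab l) u _ hw.2 h
    rw [hu, hs, Piece.lab_length hp]

/-- Words supported in a window act on the window only. -/
theorem F_window (A B : R) (w : Word k) (la lm lb : List (Pt k)) (a m b : List Bool)
    (hl : a.length = la.length) (hm : m.length = lm.length) (hw : fits lm.length w)
    (f : List Bool → R) (n : ℕ) (hn : a.length = n) :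
    F A B (la ++ lm ++ lb) (w.map (Piece.shift n)) f (a ++ m ++ b) =
      F A B lm w (fun m' => f (a ++ m' ++ b)) m := by
  induction w generalizing lm m with
  | nil => rfl
  | cons p w ih =>
    have hp := hw.1
    simp only [List.map_cons, F]
    rw [← hn, op_window A B p la lm lb a m b hl hm (by rw [hm]; exact hp)]
    apply op_congr A B lm p m (by rw [hm]; exact hp)
    intro u hu
    rw [lab_window p la lm lb _ hl.symm hp, hn]
    apply ih
    · rw [hu, hm, Piece.lab_length hp]
    · rw [Piece.lab_length hp]
      exact hw.2

theorem run_window (w : Word k) (la lm lb : List (Pt k)) (hw : fits lm.length w)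
    (n : ℕ) (hn : la.length = n) :
    run (la ++ lm ++ lb) (w.map (Piece.shift n)) = la ++ run lm w ++ lb := by
  induction w generalizing lm with
  | nil => rfl
  | cons p w ih =>
    simp only [List.map_cons, run]
    rw [lab_window p la lm lb _ hn hw.1, ih]
    rw [Piece.lab_length hw.1]
    exact hw.2

theorem ok_window (p : Piece k) (la lm lb : List (Pt k)) (n : ℕ) (hn : la.length = n)
    (hp : p.pos + p.ins ≤ lm.length) (h : (p.shift n).ok (la ++ lm ++ lb)) : p.ok lm := by
  subst hn
  cases p with
  | cross i o =>
    have hp' : i + 2 ≤ lm.length := hp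
    simp only [Piece.ok]
    omega
  | cap i =>
    have hp' : i + 2 ≤ lm.length := hp
    obtain ⟨c, d, h1, h2⟩ := h
    refine ⟨c, d, ?_, ?_⟩
    · rw [← h1, List.append_assoc]
      show lm[i]? = (la ++ (lm ++ lb))[la.length + i]?
      rw [List.getElem?_append_right (by omega), List.getElem?_append_left (by omega)]
      congr 1
      omega
    · rw [← h2, List.append_assoc]
      show lm[i + 1]? = (la ++ (lm ++ lb))[la.length + i + 1]?
      rw [List.getElem?_append_right (by omega), List.getElem?_append_left (by omega)]
      congr 1
      omega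
  | cup i c d => exact hp

theorem okW_window (w : Word k) (la lm lb : List (Pt k)) (hw : fits lm.length w)
    (n : ℕ) (hn : la.length = n) (h : okW (la ++ lm ++ lb) (w.map (Piece.shift n))) :
    okW lm w := by
  induction w generalizing lm with
  | nil => trivial
  | cons p w ih =>
    obtain ⟨h1, h2⟩ := h
    refine ⟨ok_window p la lm lb n hn hw.1 h1, ?_⟩
    rw [lab_window p la lm lb _ hn hw.1] at h2
    apply ih _ _ h2
    rw [Piece.lab_length hw.1]
    exact hw.2

end Pool.Agent.StrLink
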